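import Pool.Agent.H111S.Br

set_option autoImplicit false
set_option linter.unusedVariables false
set_option linter.constructorNameAsVariable false
set_option maxRecDepth 100000
set_option maxHeartbeats 4000000

/-! # A lower bound for the number of self-avoiding words from irreducible bridges, II -/

namespace Pool.Agent.H111S.Br

open Pool.Agent.H976R2 Dir Finset
open scoped Classical

/-- a checked block -/
structure Blk (b : List Dir) : Prop where
  ne : b ≠ []
  len : b.length ≤ 12
  pos : ∀ p q, b = p ++ q → p ≠ [] → 0 < wX p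
  top : ∀ p q, b = p ++ q → wX p ≤ wX b
  saw : Saw b
  irr : ∀ u v, b = u ++ v → u ≠ [] → v ≠ [] →
    (∃ p q, v = p ++ q ∧ p ≠ [] ∧ wX p ≤ 0) ∨ (∃ p q, u = p ++ q ∧ wX u < wX p)

theorem chk_blk {b : List Dir} (h : chk b = true) : Blk b := by
  unfold chk at h
  simp only [Bool.and_eq_true, decide_eq_true_eq, List.all_eq_true, Bool.or_eq_true,
    List.any_eq_true, List.mem_inits, List.mem_tails, List.mem_range, List.isEmpty_iff,
    Bool.not_eq_true', Bool.and_eq_false_iff, decide_eq_false_iff_not,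
    List.isEmpty_eq_false_iff] at h
  obtain ⟨⟨⟨⟨⟨h1, h2⟩, h3⟩, h4⟩, h5⟩, h6⟩ := h
  refine ⟨h1, h2, ?_, ?_, ?_, ?_⟩
  · intro p q hpq hp
    exact (h3 p ⟨q, hpq.symm⟩).resolve_left hp
  · intro p q hpq
    exact h4 p ⟨q, hpq.symm⟩
  · intro a c d hacd hc ⟨hx, hy⟩
    have := h5 (c ++ d) ⟨a, by rw [hacd, List.append_assoc]⟩ c ⟨d, rfl⟩
    rcases this with h | h | h
    · exact hc h
    · exact h hx
    · exact h hy
  · intro u v huv hu hv
    have hlen : b.length = u.length + v.length := by rw [huv, List.length_append]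
    have hv0 : 0 < v.length := List.length_pos_iff.mpr hv
    have hu0 : 0 < u.length := List.length_pos_iff.mpr hu
    have e1 : b.drop u.length = v := by rw [huv, List.drop_left]
    have e2 : b.take u.length = u := by rw [huv, List.take_left]
    have := h6 u.length (by omega)
    rw [e1, e2] at this
    rcases this with (h | ⟨p, ⟨q, hq⟩, hp, hx⟩) | ⟨p, ⟨q, hq⟩, hx⟩
    · omega
    · left; exact ⟨p, q, hq.symm, hp, hx⟩
    · right; exact ⟨p, q, hq.symm, hx⟩

/-- the block of a code -/
def bl (c : ℕ) : List Dir := dec 13 c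

theorem bl_blk {c : ℕ} (hc : c ∈ codes) : Blk (bl c) := by
  have := chk_all
  simp only [List.all_eq_true, Bool.and_eq_true] at this
  exact chk_blk (this c hc).1

theorem bl_code {c : ℕ} (hc : c ∈ codes) : code (bl c) = c := by
  have := chk_all
  simp only [List.all_eq_true, Bool.and_eq_true, decide_eq_true_eq] at this
  exact (this c hc).2

theorem bl_inj {c c' : ℕ} (hc : c ∈ codes) (hc' : c' ∈ codes) (h : bl c = bl c') : c = c' := by
  rw [← bl_code hc, ← bl_code hc', h]

/-- concatenations of blocks -/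
inductive Ch : List Dir → Prop
  | nil : Ch []
  | cons (c : ℕ) (w : List Dir) : c ∈ codes → Ch w → Ch (bl c ++ w)

theorem wX_app (u v : List Dir) : wX (u ++ v) = wX u + wX v := by simp [wX]

theorem Ch.pos {w : List Dir} (h : Ch w) : ∀ p q, w = p ++ q → p ≠ [] → 0 < wX p := by
  induction h with
  | nil =>
    intro p q hpq hp
    exact absurd (List.append_eq_nil_iff.mp hpq.symm).1 hp
  | cons c w hc hw ih =>
    intro p q hpq hp
    have B := bl_blk hc
    rcases List.append_eq_append_iff.mp hpq with ⟨r, h1, h2⟩ | ⟨r, h1, h2⟩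
    · rw [h1, wX_app]
      have b1 := B.pos (bl c) [] (by simp) B.ne
      by_cases hr : r = []
      · subst hr; simpa [wX] using b1
      · have := ih r q h2 hr
        omega
    · exact B.pos p r h1 hp

theorem Ch.saw {w : List Dir} (h : Ch w) : Saw w := by
  induction h with
  | nil => exact Low.KLow.saw_nil
  | cons c w hc hw ih =>
    have B := bl_blk hc
    intro a d e hade hd ⟨hx, hy⟩
    rw [List.append_assoc] at hade
    rcases List.append_eq_append_iff.mp hade with ⟨r, h1, h2⟩ | ⟨r, h1, h2⟩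
    · -- a = bl c ++ r
      exact ih r d e (by rw [h2, List.append_assoc]) hd ⟨hx, hy⟩
    · -- bl c = a ++ r, d ++ e = r ++ w
      rcases List.append_eq_append_iff.mp h2 with ⟨s, h3, h4⟩ | ⟨s, h3, h4⟩
      · -- r = d ++ s
        exact B.saw a d s (by rw [h1, h3, List.append_assoc]) hd ⟨hx, hy⟩
      · -- d = r ++ s, w = s ++ e
        by_cases hs : s = []
        · subst hs
          rw [List.append_nil] at h3
          exact B.saw a d [] (by rw [h1, h3]; simp) hd ⟨hx, hy⟩
        · have p1 := hw.pos s e h4 hs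
          have p2 := B.top a r h1
          have p3 : wX (bl c) = wX a + wX r := by rw [h1, wX_app]
          rw [h3, wX_app] at hx
          omega

theorem uniq {c c' : ℕ} {w w' : List Dir} (hc : c ∈ codes) (hc' : c' ∈ codes)
    (hw : Ch w) (hw' : Ch w') (h : bl c ++ w = bl c' ++ w') : c = c' := by
  have key : ∀ {c c' : ℕ} {w w' : List Dir}, c ∈ codes → c' ∈ codes → Ch w → Ch w' →
      ∀ r, bl c' = bl c ++ r → w = r ++ w' → r = [] := by
    intro c c' w w' hc hc' hw hw' r h1 h2
    by_contra hr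
    have B := bl_blk hc
    have B' := bl_blk hc'
    rcases B'.irr _ _ h1 B.ne hr with ⟨p, q, hpq, hp, hx⟩ | ⟨p, q, hpq, hx⟩
    · have := hw.pos p (q ++ w') (by rw [h2, hpq, List.append_assoc]) hp
      omega
    · have := B.top p q hpq
      omega
  rcases List.append_eq_append_iff.mp h with ⟨r, h1, h2⟩ | ⟨r, h1, h2⟩
  · have := key hc hc' hw hw' r h1 h2
    subst this
    exact (bl_inj hc' hc (by simpa using h1)).symm
  · have := key hc' hc hw' hw r h1 h2
    subst this
    exact bl_inj hc hc' (by simpa using h1)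

/-- chains of length `n` -/
noncomputable def CH (n : ℕ) : Finset (List Dir) := (SW n).filter Ch

theorem mem_CH {n : ℕ} {w : List Dir} : w ∈ CH n ↔ w.length = n ∧ Ch w := by
  unfold CH
  rw [mem_filter, mem_SW]
  exact ⟨fun h => ⟨h.1.1, h.2⟩, fun h => ⟨⟨h.1, h.2.saw⟩, h.2⟩⟩

theorem CH_rec (n : ℕ) (hn : 12 ≤ n) :
    ∑ c ∈ codes.toFinset, (CH (n - (bl c).length)).card ≤ (CH n).card := by
  have h1 : ∀ c, (CH (n - (bl c).length)).card =
      ((CH (n - (bl c).length)).image (fun v => bl c ++ v)).card :=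
    fun c => (card_image_of_injective _ (fun v w h => by simpa using h)).symm
  rw [sum_congr rfl (fun c _ => h1 c), ← card_biUnion]
  · refine card_le_card ?_
    intro w hw
    rw [mem_biUnion] at hw
    obtain ⟨c, hc, hw⟩ := hw
    rw [mem_image] at hw
    obtain ⟨v, hv, rfl⟩ := hw
    rw [List.mem_toFinset] at hc
    rw [mem_CH] at hv ⊢
    have := (bl_blk hc).len
    refine ⟨by rw [List.length_append]; omega, Ch.cons c v hc hv.2⟩
  · intro c hc c' hc' hcc
    simp only [Function.onFun]
    rw [Finset.disjoint_left]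
    intro w h1 h2
    rw [Finset.mem_coe, List.mem_toFinset] at hc hc'
    obtain ⟨v, hv, rfl⟩ := mem_image.mp h1
    obtain ⟨v', hv', h⟩ := mem_image.mp h2
    exact hcc (uniq hc hc' (mem_CH.mp hv).2 (mem_CH.mp hv').2 h.symm)

theorem CH_pos (n : ℕ) : 1 ≤ (CH n).card := by
  rw [Nat.one_le_iff_ne_zero, Finset.card_ne_zero]
  refine ⟨List.replicate n E, mem_CH.mpr ⟨by simp, ?_⟩⟩
  induction n with
  | zero => exact Ch.nil
  | succ n ih =>
    have h4 : (4 : ℕ) ∈ codes := by decide +kernel
    have := Ch.cons 4 _ h4 ih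
    have e : bl 4 = [E] := by decide +kernel
    rw [e] at this
    simpa [List.replicate_succ] using this

theorem sum_ge (n : ℕ) (hn : 12 ≤ n) :
    (2.516 : ℝ) ^ n ≤ ∑ c ∈ codes.toFinset, (2.516 : ℝ) ^ (n - (bl c).length) := by
  have hnd : codes.Nodup := codes_sorted.imp (fun h => ne_of_lt h)
  rw [List.sum_toFinset _ hnd]
  have key : ∀ L : List ℕ, (∀ c ∈ L, (bl c).length ≤ 12) →
      (L.map fun c => (2.516 : ℝ) ^ (n - (bl c).length)).sum = (2.516 : ℝ) ^ (n - 12) / 1000 ^ 12 *
        (((L.map fun c => 2516 ^ (12 - (bl c).length) * 1000 ^ (bl c).length).sum : ℕ) : ℝ) := by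
    intro L
    induction L with
    | nil => intro _; simp
    | cons c L ih =>
      intro h
      have hc : (bl c).length ≤ 12 := h c (by simp)
      rw [List.map_cons, List.sum_cons, List.map_cons, List.sum_cons,
        ih (fun c' hc' => h c' (by simp [hc'])), Nat.cast_add, mul_add]
      congr 1
      obtain ⟨k, hk⟩ : ∃ k, 12 = (bl c).length + k := ⟨12 - (bl c).length, by omega⟩
      have e1 : n - (bl c).length = (n - 12) + k := by omega
      have e2 : 12 - (bl c).length = k := by omega
      rw [e1, e2, pow_add]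
      push_cast
      have e3 : (1000 : ℝ) ^ 12 = 1000 ^ (bl c).length * 1000 ^ k := by rw [← pow_add, ← hk]
      have e4 : (2.516 : ℝ) ^ k = 2516 ^ k / 1000 ^ k := by
        rw [← div_pow]; norm_num
      rw [e3, e4]
      field_simp
  rw [key codes (fun c hc => (bl_blk hc).len)]
  have h2 : (2516 : ℝ) ^ 12 ≤
      (((codes.map fun c => 2516 ^ (12 - (bl c).length) * 1000 ^ (bl c).length).sum : ℕ) : ℝ) := by
    have := codes_sum
    exact_mod_cast this
  have h3 : (2.516 : ℝ) ^ n = (2.516 : ℝ) ^ (n - 12) / 1000 ^ 12 * (2516 : ℝ) ^ 12 := by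
    obtain ⟨m, rfl⟩ : ∃ m, n = m + 12 := ⟨n - 12, by omega⟩
    rw [Nat.add_sub_cancel, pow_add]
    have : (2.516 : ℝ) ^ 12 = 2516 ^ 12 / 1000 ^ 12 := by
      rw [← div_pow]; norm_num
    rw [this]
    ring
  rw [h3]
  exact mul_le_mul_of_nonneg_left h2 (by positivity)

theorem CH_low (n : ℕ) : ((2.516 : ℝ) ^ 12)⁻¹ * (2.516 : ℝ) ^ n ≤ ((CH n).card : ℝ) := by
  induction n using Nat.strong_induction_on with
  | _ n ih =>
    by_cases hn : n < 12
    · have h1 : (1 : ℝ) ≤ ((CH n).card : ℝ) := by exact_mod_cast CH_pos n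
      refine le_trans ?_ h1
      rw [inv_mul_le_iff₀ (by positivity), mul_one]
      exact pow_le_pow_right₀ (by norm_num) hn.le
    · push Not at hn
      have h1 : (∑ c ∈ codes.toFinset, ((CH (n - (bl c).length)).card : ℝ)) ≤ ((CH n).card : ℝ) := by
        exact_mod_cast CH_rec n hn
      refine le_trans ?_ h1
      have h2 : ((2.516 : ℝ) ^ 12)⁻¹ * (2.516 : ℝ) ^ n ≤
          ∑ c ∈ codes.toFinset, ((2.516 : ℝ) ^ 12)⁻¹ * (2.516 : ℝ) ^ (n - (bl c).length) := by
        rw [← mul_sum]
        exact mul_le_mul_of_nonneg_left (sum_ge n hn) (by positivity)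
      refine h2.trans (sum_le_sum fun c hc => ih _ ?_)
      rw [List.mem_toFinset] at hc
      have := List.length_pos_iff.mpr (bl_blk hc).ne
      omega

theorem SW_low : ∃ c : ℝ, 0 < c ∧ ∀ n : ℕ, c * (2.516 : ℝ) ^ n ≤ ((SW n).card : ℝ) := by
  refine ⟨((2.516 : ℝ) ^ 12)⁻¹, by positivity, fun n => (CH_low n).trans ?_⟩
  exact_mod_cast card_le_card (filter_subset _ _)

end Pool.Agent.H111S.Br
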