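import Pool.Agent.H111S.Expl

set_option autoImplicit false
set_option linter.unusedVariables false
set_option linter.unusedSectionVars false
set_option linter.unusedSimpArgs false
set_option maxHeartbeats 4000000

/-!
# The number of closed loops of small area
-/

namespace Pool.Agent.H111S

open Finset Pool.Agent.H924P

section general

variable {m : ℕ} [NeZero m] {f : ZMod m → ℤ × ℤ}

/-- number of turns -/
noncomputable def nT (f : ZMod m → ℤ × ℤ) : ℕ := by
  classical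
  exact (univ.filter (fun k : ZMod m => ¬ cr (f k) (f (k+1)) (f (k+1+1)) = 0)).card

lemma nT_eq (hm : 4 ≤ m) (hf : IsLoop m f) : nT f ≤ nL f + nR f := by
  classical
  unfold nT nL nR
  refine le_trans (Finset.card_le_card ?_) (Finset.card_union_le _ _)
  intro k hk
  rw [Finset.mem_union, Finset.mem_filter, Finset.mem_filter]
  rw [Finset.mem_filter] at hk
  rcases (turn_facts hm hf.2.1 hf.2.2 k).2.2.2.2 with ⟨a, _⟩ | ⟨a, _⟩ | ⟨a, _⟩
  · exact Or.inl ⟨Finset.mem_univ _, a⟩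
  · exact absurd a hk.2
  · exact Or.inr ⟨Finset.mem_univ _, a⟩

lemma determ2 (hm : 4 ≤ m) {f f' : ZMod m → ℤ × ℤ} (hf : IsLoop m f) (hf' : IsLoop m f')
    (h01 : f (0 + 1) = f' (0 + 1))
    (ht : ∀ k, cr (f k) (f (k+1)) (f (k+1+1)) = cr (f' k) (f' (k+1)) (f' (k+1+1))) : f = f' := by
  have h : ∀ j : ℕ, f (j : ZMod m) = f' (j : ZMod m) ∧ f ((j : ZMod m) + 1) = f' ((j : ZMod m) + 1) := by
    intro j
    induction j with
    | zero => simpa using ⟨hf.1.trans hf'.1.symm, by simpa using h01⟩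
    | succ j ih =>
      obtain ⟨e1, e2⟩ := ih
      push_cast
      refine ⟨e2, ?_⟩
      refine next_eq (p := f (j : ZMod m)) (v := f ((j : ZMod m) + 1)) (step_cases hf.2.2 _)
        (step_cases hf.2.2 _) ?_ (k2_ne hm hf.2.1 _) ?_ ?_
      · rw [e2]; exact step_cases hf'.2.2 _
      · rw [e1]; exact k2_ne hm hf'.2.1 _
      · have := ht (j : ZMod m)
        rw [← e1, ← e2] at this
        exact this
  funext k
  have := (h k.val).1
  rwa [ZMod.natCast_zmod_val] at this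

theorem few_turns (hm : 4 ≤ m) (δ : ℤ × ℤ) (F : Finset (ZMod m → ℤ × ℤ))
    (hF : ∀ f ∈ F, IsLoop m f ∧ f (0 + 1) = δ) (z : ℝ) (hz : 0 ≤ z) :
    ∑ f ∈ F, z ^ (nT f) ≤ (1 + 2 * z) ^ m := by
  classical
  let w : ℤ → ℝ := fun t => if t = 0 then 1 else z
  let tf : (ZMod m → ℤ × ℤ) → (ZMod m → ℤ) := fun f k => cr (f k) (f (k+1)) (f (k+1+1))
  have hw : ∀ t, 0 ≤ w t := by
    intro t
    simp only [w]
    split_ifs
    · norm_num
    · exact hz
  have h1 : ∀ f : ZMod m → ℤ × ℤ, z ^ (nT f) = ∏ k, w (tf f k) := by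
    intro f
    simp only [w, tf, nT]
    rw [Finset.prod_ite]
    simp
  have hinj : Set.InjOn tf (F : Set (ZMod m → ℤ × ℤ)) := by
    intro f hf f' hf' h
    obtain ⟨a, b⟩ := hF f hf
    obtain ⟨a', b'⟩ := hF f' hf'
    exact determ2 hm a a' (b.trans b'.symm) (fun k => congrFun h k)
  calc ∑ f ∈ F, z ^ (nT f) = ∑ f ∈ F, ∏ k, w (tf f k) := Finset.sum_congr rfl fun f _ => h1 f
    _ = ∑ t ∈ F.image tf, ∏ k, w (t k) := by
        rw [Finset.sum_image (fun a ha b hb h => hinj ha hb h)]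
    _ ≤ ∑ t ∈ Fintype.piFinset (fun _ : ZMod m => ({-1, 0, 1} : Finset ℤ)), ∏ k, w (t k) := by
        apply Finset.sum_le_sum_of_subset_of_nonneg
        · intro t ht
          obtain ⟨f, hf, rfl⟩ := Finset.mem_image.mp ht
          rw [Fintype.mem_piFinset]
          intro k
          obtain ⟨a, b⟩ := hF f hf
          simp only [tf]
          rcases (turn_facts hm a.2.1 a.2.2 k).2.2.2.2 with ⟨h, _⟩ | ⟨h, _⟩ | ⟨h, _⟩ <;>
            rw [h] <;> simp
        · intro t _ _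
          exact Finset.prod_nonneg fun k _ => hw _
    _ = ∏ _k : ZMod m, ∑ j ∈ ({-1, 0, 1} : Finset ℤ), w j := by
        rw [Finset.prod_univ_sum]
    _ = (1 + 2 * z) ^ m := by
        rw [Finset.prod_const, Finset.card_univ, ZMod.card]
        congr 1
        simp [w]
        ring

lemma ccw_of' (hm : 4 ≤ m) (hf : IsLoop m f) (k0 : ZMod m)
    (h0 : Encl m f (lc (f k0) (f (k0 + 1)))) : CCW f := by
  have h : ∀ j : ℕ, Encl m f (lc (f (k0 + j)) (f (k0 + j + 1))) := by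
    intro j
    induction j with
    | zero => simpa using h0
    | succ j ih =>
      push_cast
      have := (turn_facts hm hf.2.1 hf.2.2 (k0 + (j : ZMod m))).1.mpr ih
      rwa [← add_assoc]
  intro k
  have := h (k - k0).val
  rwa [ZMod.natCast_zmod_val, add_sub_cancel] at this

/-- the reversed loop -/
def rev (f : ZMod m → ℤ × ℤ) : ZMod m → ℤ × ℤ := fun k => f (-k)

lemma rev_loop (hf : IsLoop m f) : IsLoop m (rev f) := by
  refine ⟨by simpa [rev] using hf.1, ?_, ?_⟩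
  · intro a b h
    exact neg_injective (hf.2.1 h)
  · intro i
    have h := hf.2.2 (-(i + 1))
    rw [show -(i + 1) + 1 = -i by ring] at h
    simp only [rev]
    rw [abs_sub_comm, abs_sub_comm (f (-(i+1))).2]
    exact h

lemma rev_encl (hf : IsLoop m f) (c : ℤ × ℤ) : Encl m (rev f) c ↔ Encl m f c := by
  unfold Encl
  have e : Nat.card {k : ZMod m // Above m (rev f) c.1 c.2 k} =
      Nat.card {k : ZMod m // Above m f c.1 c.2 k} := by
    apply Nat.card_congr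
    refine Equiv.subtypeEquiv ⟨fun k => -(k + 1), fun k => -(k + 1), fun k => by ring,
      fun k => by ring⟩ ?_
    intro k
    simp only [Equiv.coe_fn_mk]
    unfold Above rev
    have h := step_cases hf.2.2 (-(k + 1))
    rw [show -(k + 1) + 1 = -k by ring] at h ⊢
    rcases h with ⟨a, b⟩ | ⟨a, b⟩ | ⟨a, b⟩ | ⟨a, b⟩ <;> rw [a, b] <;> omega
  rw [e]

lemma rev_area (hf : IsLoop m f) : area m (rev f) = area m f := by
  unfold area
  exact Nat.card_congr (Equiv.subtypeEquivRight fun c => rev_encl hf c)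

lemma rev_ccw (hm : 4 ≤ m) (hf : IsLoop m f) (h : ¬ CCW f) : CCW (rev f) := by
  have h0 : ¬ Encl m f (lc (f 0) (f (0 + 1))) := fun h' => h (ccw_of' hm hf 0 h')
  have h1 : Encl m f (rc (f 0) (f (0 + 1))) := by
    have := (turn_facts hm hf.2.1 hf.2.2 0).2.1
    tauto
  apply ccw_of' hm (rev_loop hf) (-(0 + 1))
  rw [rev_encl hf]
  simp only [rev, neg_neg]
  have e : lc (f (0 + 1)) (f (-(-(0 + 1) + 1))) = rc (f 0) (f (0 + 1)) := by
    rw [show (-(-(0 + 1) + 1) : ZMod m) = 0 by ring]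
    rcases step_cases hf.2.2 0 with ⟨a, b⟩ | ⟨a, b⟩ | ⟨a, b⟩ | ⟨a, b⟩ <;>
      exact Prod.ext (by simp only [lc, rc]; omega) (by simp only [lc, rc]; omega)
  rw [e]
  exact h1

end general

/-- base of the exponential bound, many turns -/
noncomputable def Th : ℝ := (8 / 3 : ℝ) ^ (91 / 90 : ℝ) * (8 / 5 : ℝ) ^ (5 / 3 : ℝ)

/-- base of the exponential bound, few turns -/
noncomputable def Ps : ℝ := 9 / 4 * (4 : ℝ) ^ (2 / 3 : ℝ)

lemma Th_le : Th ≤ 5.901 := by
  have h0 : 0 ≤ Th := by unfold Th; positivity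
  have h : Th ^ 90 ≤ (5.901 : ℝ) ^ 90 := by
    have e : Th ^ 90 = (8 / 3 : ℝ) ^ 91 * (8 / 5 : ℝ) ^ 150 := by
      unfold Th
      rw [mul_pow, ← Real.rpow_natCast ((8 / 3 : ℝ) ^ (91 / 90 : ℝ)) 90,
        ← Real.rpow_natCast ((8 / 5 : ℝ) ^ (5 / 3 : ℝ)) 90, ← Real.rpow_mul (by norm_num),
        ← Real.rpow_mul (by norm_num)]
      norm_num
    rw [e]
    norm_num
  exact le_of_pow_le_pow_left₀ (by norm_num) (by norm_num) h

lemma Ps_le : Ps ≤ 5.901 := by
  have h0 : 0 ≤ Ps := by unfold Ps; positivity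
  have h : Ps ^ 3 ≤ (5.901 : ℝ) ^ 3 := by
    have e : Ps ^ 3 = (9 / 4 : ℝ) ^ 3 * 4 ^ 2 := by
      unfold Ps
      rw [mul_pow, ← Real.rpow_natCast ((4 : ℝ) ^ (2 / 3 : ℝ)) 3, ← Real.rpow_mul (by norm_num)]
      norm_num
    rw [e]
    norm_num
  exact le_of_pow_le_pow_left₀ (by norm_num) (by norm_num) h

/-- counterclockwise loops of small area with a given first step -/
theorem bad_step (N : ℕ) (hN : 2 ≤ N) [NeZero (2 * N)] (δ : ℤ × ℤ)
    (F : Finset (ZMod (2 * N) → ℤ × ℤ))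
    (hF : ∀ f ∈ F, IsLoop (2 * N) f ∧ CCW f ∧ f (0 + 1) = δ)
    (hA : ∀ f ∈ F, (area (2 * N) f : ℝ) ≤ 91 / 90 * N) :
    (F.card : ℝ) ≤ (8 / 5) ^ 3 * Th ^ N + Ps ^ N := by
  classical
  have hm : 4 ≤ 2 * N := by omega
  have hNR : (2 : ℝ) ≤ N := by exact_mod_cast hN
  set F1 := F.filter (fun f => 3 * nT f ≤ 2 * N) with hF1
  set F2 := F.filter (fun f => ¬ 3 * nT f ≤ 2 * N) with hF2
  have hsplit : F1.card + F2.card = F.card := Finset.card_filter_add_card_filter_not _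
  have b1 : (F1.card : ℝ) ≤ Ps ^ N := by
    have h := few_turns hm δ F1 (fun f hf => by
      have := hF f (Finset.mem_filter.mp hf).1
      exact ⟨this.1, this.2.2⟩) (1 / 4) (by norm_num)
    have h2 : (F1.card : ℝ) * (1 / 4 : ℝ) ^ ((2 * N : ℝ) / 3) ≤ ∑ f ∈ F1, (1 / 4 : ℝ) ^ (nT f) := by
      rw [← nsmul_eq_mul, ← Finset.sum_const]
      refine Finset.sum_le_sum fun f hf => ?_
      have h3 : 3 * nT f ≤ 2 * N := (Finset.mem_filter.mp hf).2
      have h3' : (3 : ℝ) * nT f ≤ 2 * N := by exact_mod_cast h3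
      rw [← Real.rpow_natCast]
      exact Real.rpow_le_rpow_of_exponent_ge (by norm_num) (by norm_num) (by linarith)
    have h4 := h2.trans h
    have e1 : (1 + 2 * (1 / 4 : ℝ)) ^ (2 * N) = (9 / 4 : ℝ) ^ N := by
      rw [pow_mul]; norm_num
    have e2 : Ps ^ N = (9 / 4 : ℝ) ^ N * (4 : ℝ) ^ ((2 * N : ℝ) / 3) := by
      unfold Ps
      rw [mul_pow, ← Real.rpow_natCast ((4 : ℝ) ^ (2 / 3 : ℝ)) N, ← Real.rpow_mul (by norm_num)]
      congr 2
      ring
    have e3 : (1 / 4 : ℝ) ^ ((2 * N : ℝ) / 3) * (4 : ℝ) ^ ((2 * N : ℝ) / 3) = 1 := by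
      rw [← Real.mul_rpow (by norm_num) (by norm_num)]
      norm_num
    rw [e1] at h4
    rw [e2]
    have hpos : 0 < (4 : ℝ) ^ ((2 * N : ℝ) / 3) := by positivity
    calc (F1.card : ℝ) = (F1.card * (1 / 4 : ℝ) ^ ((2 * N : ℝ) / 3)) * (4 : ℝ) ^ ((2 * N : ℝ) / 3) := by
          rw [mul_assoc, e3, mul_one]
      _ ≤ _ := mul_le_mul_of_nonneg_right h4 hpos.le
  have b2 : (F2.card : ℝ) ≤ (8 / 5) ^ 3 * Th ^ N := by
    have h := explore hm δ F2 (fun f hf => hF f (Finset.mem_filter.mp hf).1) (3 / 8) (5 / 8)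
      (by norm_num) (by norm_num) (by norm_num)
    have h2 : (F2.card : ℝ) * ((3 / 8 : ℝ) ^ ((91 / 90 : ℝ) * N) * (5 / 8 : ℝ) ^ ((5 / 3 : ℝ) * N + 3)) ≤
        ∑ f ∈ F2, (3 / 8 : ℝ) ^ (area (2 * N) f) * (5 / 8 : ℝ) ^ (2 * N + 1 - nR f) := by
      rw [← nsmul_eq_mul, ← Finset.sum_const]
      refine Finset.sum_le_sum fun f hf => ?_
      obtain ⟨hf1, hf2⟩ := Finset.mem_filter.mp hf
      obtain ⟨a, b, c⟩ := hF f hf1
      have h3 := nT_eq hm a
      have h4 := nL_le hm a b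
      have h5 : 3 * (2 * N + 1 - nR f) ≤ 5 * N + 9 := by omega
      have h5' : (3 : ℝ) * ((2 * N + 1 - nR f : ℕ) : ℝ) ≤ 5 * N + 9 := by exact_mod_cast h5
      have h6 := hA f hf1
      rw [← Real.rpow_natCast (3 / 8 : ℝ), ← Real.rpow_natCast (5 / 8 : ℝ)]
      apply mul_le_mul
      · exact Real.rpow_le_rpow_of_exponent_ge (by norm_num) (by norm_num) h6
      · exact Real.rpow_le_rpow_of_exponent_ge (by norm_num) (by norm_num) (by linarith)
      · positivity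
      · positivity
    have h7 := h2.trans h
    have e1 : (8 / 5) ^ 3 * Th ^ N = (8 / 3 : ℝ) ^ ((91 / 90 : ℝ) * N) *
        (8 / 5 : ℝ) ^ ((5 / 3 : ℝ) * N + 3) := by
      unfold Th
      rw [mul_pow, ← Real.rpow_natCast ((8 / 3 : ℝ) ^ (91 / 90 : ℝ)) N,
        ← Real.rpow_natCast ((8 / 5 : ℝ) ^ (5 / 3 : ℝ)) N, ← Real.rpow_mul (by norm_num),
        ← Real.rpow_mul (by norm_num), Real.rpow_add (by norm_num)]
      have : (8 / 5 : ℝ) ^ (3 : ℝ) = (8 / 5) ^ 3 := by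
        rw [← Real.rpow_natCast]; norm_num
      rw [this]
      ring
    have e2 : ((3 / 8 : ℝ) ^ ((91 / 90 : ℝ) * N) * (5 / 8 : ℝ) ^ ((5 / 3 : ℝ) * N + 3)) *
        ((8 / 3 : ℝ) ^ ((91 / 90 : ℝ) * N) * (8 / 5 : ℝ) ^ ((5 / 3 : ℝ) * N + 3)) = 1 := by
      rw [mul_mul_mul_comm, ← Real.mul_rpow (by norm_num) (by norm_num),
        ← Real.mul_rpow (by norm_num) (by norm_num)]
      norm_num
    rw [e1]
    have hpos : 0 < (8 / 3 : ℝ) ^ ((91 / 90 : ℝ) * N) * (8 / 5 : ℝ) ^ ((5 / 3 : ℝ) * N + 3) := by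
      positivity
    calc (F2.card : ℝ) = (F2.card * ((3 / 8 : ℝ) ^ ((91 / 90 : ℝ) * N) *
          (5 / 8 : ℝ) ^ ((5 / 3 : ℝ) * N + 3))) *
          ((8 / 3 : ℝ) ^ ((91 / 90 : ℝ) * N) * (8 / 5 : ℝ) ^ ((5 / 3 : ℝ) * N + 3)) := by
          rw [mul_assoc, e2, mul_one]
      _ ≤ 1 * _ := mul_le_mul_of_nonneg_right h7 hpos.le
      _ = _ := one_mul _
  have : (F.card : ℝ) = F1.card + F2.card := by exact_mod_cast hsplit.symm
  rw [this]
  linarith

/-- all loops of small area -/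
theorem bad_all (N : ℕ) (hN : 2 ≤ N) [NeZero (2 * N)] (F : Finset (ZMod (2 * N) → ℤ × ℤ))
    (hF : ∀ f ∈ F, IsLoop (2 * N) f) (hA : ∀ f ∈ F, (area (2 * N) f : ℝ) ≤ 91 / 90 * N) :
    (F.card : ℝ) ≤ 41 * 5.901 ^ N := by
  classical
  have hm : 4 ≤ 2 * N := by omega
  have key : ∀ G : Finset (ZMod (2 * N) → ℤ × ℤ), (∀ f ∈ G, IsLoop (2 * N) f ∧ CCW f) →
      (∀ f ∈ G, (area (2 * N) f : ℝ) ≤ 91 / 90 * N) → (G.card : ℝ) ≤ 20.5 * 5.901 ^ N := by
    intro G hG hGA
    have h1 : G.card = ∑ δ ∈ ({(1, 0), (-1, 0), (0, 1), (0, -1)} : Finset (ℤ × ℤ)),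
        (G.filter (fun f => f (0 + 1) = δ)).card := by
      apply Finset.card_eq_sum_card_fiberwise
      intro f hf
      have hl := (hG f hf).1
      have h0 := hl.1
      have h1 := step_cases hl.2.2 0
      rw [h0] at h1
      simp only [Prod.fst_zero, Prod.snd_zero, zero_add, zero_sub] at h1
      simp only [Finset.coe_insert, Finset.coe_singleton, Set.mem_insert_iff,
        Set.mem_singleton_iff, zero_add, Prod.ext_iff]
      exact h1
    have h2 : ∀ δ, ((G.filter (fun f => f (0 + 1) = δ)).card : ℝ) ≤ 5.125 * 5.901 ^ N := by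
      intro δ
      have h3 := bad_step N hN δ (G.filter (fun f => f (0 + 1) = δ)) (fun f hf => by
        obtain ⟨a, b⟩ := Finset.mem_filter.mp hf
        exact ⟨(hG f a).1, (hG f a).2, b⟩) (fun f hf => hGA f (Finset.mem_filter.mp hf).1)
      have h4 : Th ^ N ≤ 5.901 ^ N := pow_le_pow_left₀ (by unfold Th; positivity) Th_le N
      have h5 : Ps ^ N ≤ 5.901 ^ N := pow_le_pow_left₀ (by unfold Ps; positivity) Ps_le N
      have h6 : (0 : ℝ) < 5.901 ^ N := by positivity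
      have h7 : ((8 : ℝ) / 5) ^ 3 ≤ 4.1 := by norm_num
      nlinarith
    have h1' : (G.card : ℝ) = ∑ δ ∈ ({(1, 0), (-1, 0), (0, 1), (0, -1)} : Finset (ℤ × ℤ)),
        ((G.filter (fun f => f (0 + 1) = δ)).card : ℝ) := by
      rw [h1]; push_cast; rfl
    rw [h1']
    refine (Finset.sum_le_sum fun δ _ => h2 δ).trans ?_
    rw [Finset.sum_const, nsmul_eq_mul]
    have : (({(1, 0), (-1, 0), (0, 1), (0, -1)} : Finset (ℤ × ℤ)).card : ℝ) ≤ 4 := by
      have : ({(1, 0), (-1, 0), (0, 1), (0, -1)} : Finset (ℤ × ℤ)).card ≤ 4 := by decide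
      exact_mod_cast this
    have h6 : (0 : ℝ) < 5.901 ^ N := by positivity
    nlinarith
  have hsplit : (F.filter (fun f => CCW f)).card + (F.filter (fun f => ¬ CCW f)).card = F.card :=
    Finset.card_filter_add_card_filter_not _
  have k1 := key (F.filter (fun f => CCW f)) (fun f hf => by
    obtain ⟨a, b⟩ := Finset.mem_filter.mp hf
    exact ⟨hF f a, b⟩) (fun f hf => hA f (Finset.mem_filter.mp hf).1)
  have k2 := key ((F.filter (fun f => ¬ CCW f)).image rev) (fun f hf => by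
    obtain ⟨g, hg, rfl⟩ := Finset.mem_image.mp hf
    obtain ⟨a, b⟩ := Finset.mem_filter.mp hg
    exact ⟨rev_loop (hF g a), rev_ccw hm (hF g a) b⟩) (fun f hf => by
    obtain ⟨g, hg, rfl⟩ := Finset.mem_image.mp hf
    obtain ⟨a, b⟩ := Finset.mem_filter.mp hg
    rw [rev_area (hF g a)]
    exact hA g a)
  rw [Finset.card_image_of_injective _ (fun a b h => by
    funext k
    have := congrFun h (-k)
    simpa [rev] using this)] at k2
  have : (F.card : ℝ) = (F.filter (fun f => CCW f)).card + (F.filter (fun f => ¬ CCW f)).card := by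
    exact_mod_cast hsplit.symm
  rw [this]
  linarith

end Pool.Agent.H111S
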