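import Pool.Agent.H111S.CntB

set_option autoImplicit false
set_option linter.unusedVariables false
set_option linter.unusedSectionVars false
set_option linter.unusedSimpArgs false
set_option maxHeartbeats 4000000

/-!
# The number of closed loops of small area, third bound
-/

namespace Pool.Agent.H111S

open Finset Pool.Agent.H924P

/-- base of the exponential bound -/
noncomputable def Tc : ℝ := (19 / 10 : ℝ) ^ (68 / 53 : ℝ) * (25 / 9)

lemma Tc_le : Tc ≤ 6.3292 := by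
  have h0 : 0 ≤ Tc := by unfold Tc; positivity
  have h : Tc ^ 53 ≤ (6.3292 : ℝ) ^ 53 := by
    have e : Tc ^ 53 = (19 / 10 : ℝ) ^ 68 * (25 / 9 : ℝ) ^ 53 := by
      unfold Tc
      rw [mul_pow, ← Real.rpow_natCast ((19 / 10 : ℝ) ^ (68 / 53 : ℝ)) 53,
        ← Real.rpow_mul (by norm_num)]
      norm_num
    rw [e]
    norm_num
  exact le_of_pow_le_pow_left₀ (by norm_num) (by norm_num) h

/-- counterclockwise loops of small area with a given first step -/
theorem bad_stepC (N : ℕ) (hN : 2 ≤ N) [NeZero (2 * N)] (δ : ℤ × ℤ)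
    (F : Finset (ZMod (2 * N) → ℤ × ℤ))
    (hF : ∀ f ∈ F, IsLoop (2 * N) f ∧ CCW f ∧ f (0 + 1) = δ)
    (hA : ∀ f ∈ F, (area (2 * N) f : ℝ) ≤ 68 / 53 * N) :
    (F.card : ℝ) ≤ (19 / 15) ^ 4 * Tc ^ N := by
  classical
  have hm : 4 ≤ 2 * N := by omega
  have h := explore2 hm δ F hF (10 / 19) (2 / 5) (by norm_num) (by norm_num) (by norm_num)
    (by norm_num)
  have h2 : (F.card : ℝ) * ((10 / 19 : ℝ) ^ ((68 / 53 : ℝ) * N) * (3 / 5 : ℝ) ^ (2 * N) *
      (15 / 19) ^ 4) ≤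
      ∑ f ∈ F, ((10 / 19 : ℝ) ^ (OA f).card * (2 / 5) ^ (OB f).card) *
      ((1 - 10 / 19) ^ (QA f).card * (1 - 2 / 5) ^ (QB f).card) := by
    rw [← nsmul_eq_mul, ← Finset.sum_const]
    refine Finset.sum_le_sum fun f hf => ?_
    obtain ⟨a, b, c⟩ := hF f hf
    have h6 := hA f hf
    have w := weight N (area (2 * N) f) (OA f).card (OB f).card (QA f).card (QB f).card
      (nL f) (nS f) (nR f) (n_sum hm a) (nL_le hm a b) (OAB_card hm a b) (OB_card hm a b)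
      (QA_card hm a b) (QB_card hm a b)
    rw [show (1 - 10 / 19 : ℝ) = 9 / 19 by norm_num, show (1 - 2 / 5 : ℝ) = 3 / 5 by norm_num]
    refine le_trans ?_ w
    refine mul_le_mul_of_nonneg_right (mul_le_mul_of_nonneg_right ?_ (by positivity))
      (by positivity)
    rw [← Real.rpow_natCast (10 / 19 : ℝ)]
    exact Real.rpow_le_rpow_of_exponent_ge (by norm_num) (by norm_num) h6
  have h7 := h2.trans h
  have e1 : (19 / 15 : ℝ) ^ 4 * Tc ^ N = (19 / 10 : ℝ) ^ ((68 / 53 : ℝ) * N) *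
      (5 / 3 : ℝ) ^ (2 * N) * (19 / 15) ^ 4 := by
    unfold Tc
    rw [mul_pow, ← Real.rpow_natCast ((19 / 10 : ℝ) ^ (68 / 53 : ℝ)) N,
      ← Real.rpow_mul (by norm_num), pow_mul (5 / 3 : ℝ) 2 N]
    norm_num
    ring
  have e2 : ((10 / 19 : ℝ) ^ ((68 / 53 : ℝ) * N) * (3 / 5 : ℝ) ^ (2 * N) * (15 / 19) ^ 4) *
      ((19 / 10 : ℝ) ^ ((68 / 53 : ℝ) * N) * (5 / 3 : ℝ) ^ (2 * N) * (19 / 15) ^ 4) = 1 := by
    have c1 : (10 / 19 : ℝ) ^ ((68 / 53 : ℝ) * N) * (19 / 10 : ℝ) ^ ((68 / 53 : ℝ) * N) = 1 := by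
      rw [← Real.mul_rpow (by norm_num) (by norm_num)]
      norm_num
    have c2 : (3 / 5 : ℝ) ^ (2 * N) * (5 / 3 : ℝ) ^ (2 * N) = 1 := by
      rw [← mul_pow]; norm_num
    have c3 : (15 / 19 : ℝ) ^ 4 * (19 / 15) ^ 4 = 1 := by norm_num
    calc _ = ((10 / 19 : ℝ) ^ ((68 / 53 : ℝ) * N) * (19 / 10 : ℝ) ^ ((68 / 53 : ℝ) * N)) *
          ((3 / 5 : ℝ) ^ (2 * N) * (5 / 3 : ℝ) ^ (2 * N)) * ((15 / 19 : ℝ) ^ 4 * (19 / 15) ^ 4) := by
          ring
      _ = 1 := by rw [c1, c2, c3]; norm_num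
  rw [e1]
  have hpos : 0 < (19 / 10 : ℝ) ^ ((68 / 53 : ℝ) * N) * (5 / 3 : ℝ) ^ (2 * N) * (19 / 15) ^ 4 := by
    positivity
  calc (F.card : ℝ) = (F.card * ((10 / 19 : ℝ) ^ ((68 / 53 : ℝ) * N) * (3 / 5 : ℝ) ^ (2 * N) *
        (15 / 19) ^ 4)) *
        ((19 / 10 : ℝ) ^ ((68 / 53 : ℝ) * N) * (5 / 3 : ℝ) ^ (2 * N) * (19 / 15) ^ 4) := by
        rw [mul_assoc, e2, mul_one]
    _ ≤ 1 * _ := mul_le_mul_of_nonneg_right h7 hpos.le
    _ = _ := one_mul _

/-- all loops of small area -/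
theorem bad_allC (N : ℕ) (hN : 2 ≤ N) [NeZero (2 * N)] (F : Finset (ZMod (2 * N) → ℤ × ℤ))
    (hF : ∀ f ∈ F, IsLoop (2 * N) f) (hA : ∀ f ∈ F, (area (2 * N) f : ℝ) ≤ 68 / 53 * N) :
    (F.card : ℝ) ≤ 21 * 6.3292 ^ N := by
  classical
  have hm : 4 ≤ 2 * N := by omega
  have key : ∀ G : Finset (ZMod (2 * N) → ℤ × ℤ), (∀ f ∈ G, IsLoop (2 * N) f ∧ CCW f) →
      (∀ f ∈ G, (area (2 * N) f : ℝ) ≤ 68 / 53 * N) → (G.card : ℝ) ≤ 10.5 * 6.3292 ^ N := by
    intro G hG hGA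
    have h1 : G.card = ∑ δ ∈ ({(1, 0), (-1, 0), (0, 1), (0, -1)} : Finset (ℤ × ℤ)),
        (G.filter (fun f => f (0 + 1) = δ)).card := by
      apply Finset.card_eq_sum_card_fiberwise
      intro f hf
      have hl := (hG f hf).1
      have h0 := hl.1
      have h1 := step_cases hl.2.2 0
      rw [h0] at h1
      simp only [Prod.fst_zero, Prod.snd_zero, zero_add, zero_sub] at h1
      simp only [Finset.coe_insert, Finset.coe_singleton, Set.mem_insert_iff,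
        Set.mem_singleton_iff, zero_add, Prod.ext_iff]
      exact h1
    have h2 : ∀ δ, ((G.filter (fun f => f (0 + 1) = δ)).card : ℝ) ≤ 2.625 * 6.3292 ^ N := by
      intro δ
      have h3 := bad_stepC N hN δ (G.filter (fun f => f (0 + 1) = δ)) (fun f hf => by
        obtain ⟨a, b⟩ := Finset.mem_filter.mp hf
        exact ⟨(hG f a).1, (hG f a).2, b⟩) (fun f hf => hGA f (Finset.mem_filter.mp hf).1)
      have h4 : Tc ^ N ≤ 6.3292 ^ N := pow_le_pow_left₀ (by unfold Tc; positivity) Tc_le N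
      have h6 : (0 : ℝ) < 6.3292 ^ N := by positivity
      have h7 : ((19 : ℝ) / 15) ^ 4 ≤ 2.6 := by norm_num
      have h8 : (0 : ℝ) ≤ (19 / 15) ^ 4 := by positivity
      nlinarith
    have h1' : (G.card : ℝ) = ∑ δ ∈ ({(1, 0), (-1, 0), (0, 1), (0, -1)} : Finset (ℤ × ℤ)),
        ((G.filter (fun f => f (0 + 1) = δ)).card : ℝ) := by
      rw [h1]; push_cast; rfl
    rw [h1']
    refine (Finset.sum_le_sum fun δ _ => h2 δ).trans ?_
    rw [Finset.sum_const, nsmul_eq_mul]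
    have : (({(1, 0), (-1, 0), (0, 1), (0, -1)} : Finset (ℤ × ℤ)).card : ℝ) ≤ 4 := by
      have : ({(1, 0), (-1, 0), (0, 1), (0, -1)} : Finset (ℤ × ℤ)).card ≤ 4 := by decide
      exact_mod_cast this
    have h6 : (0 : ℝ) < 6.3292 ^ N := by positivity
    nlinarith
  have hsplit : (F.filter (fun f => CCW f)).card + (F.filter (fun f => ¬ CCW f)).card = F.card :=
    Finset.card_filter_add_card_filter_not _
  have k1 := key (F.filter (fun f => CCW f)) (fun f hf => by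
    obtain ⟨a, b⟩ := Finset.mem_filter.mp hf
    exact ⟨hF f a, b⟩) (fun f hf => hA f (Finset.mem_filter.mp hf).1)
  have k2 := key ((F.filter (fun f => ¬ CCW f)).image rev) (fun f hf => by
    obtain ⟨g, hg, rfl⟩ := Finset.mem_image.mp hf
    obtain ⟨a, b⟩ := Finset.mem_filter.mp hg
    exact ⟨rev_loop (hF g a), rev_ccw hm (hF g a) b⟩) (fun f hf => by
    obtain ⟨g, hg, rfl⟩ := Finset.mem_image.mp hf
    obtain ⟨a, b⟩ := Finset.mem_filter.mp hg
    rw [rev_area (hF g a)]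
    exact hA g a)
  rw [Finset.card_image_of_injective _ (fun a b h => by
    funext k
    have := congrFun h (-k)
    simpa [rev] using this)] at k2
  have : (F.card : ℝ) = (F.filter (fun f => CCW f)).card + (F.filter (fun f => ¬ CCW f)).card := by
    exact_mod_cast hsplit.symm
  rw [this]
  linarith

end Pool.Agent.H111S
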