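import Pool.Agent.H111S.Uml

set_option autoImplicit false
set_option linter.unusedVariables false
set_option linter.unusedSectionVars false
set_option linter.unusedSimpArgs false
set_option maxHeartbeats 4000000

/-!
# Closed loops on the square lattice: the enclosed cells are connected
-/

namespace Pool.Agent.H111S

open Finset Pool.Agent.H924P

variable {m : ℕ} [NeZero m] {f : ZMod m → ℤ × ℤ}

/-- one step between cells: down, or to the left if there is no block below -/
def T (f : ZMod m → ℤ × ℤ) (a b : ℤ × ℤ) : Prop :=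
  b = (a.1, a.2 - 1) ∨ (b = (a.1 - 1, a.2) ∧
    ¬ (Encl m f (a.1, a.2 - 1) ∧ Encl m f (a.1 - 1, a.2 - 1)))

/-- the graph on the enclosed cells -/
def Gr (f : ZMod m → ℤ × ℤ) : SimpleGraph {c : ℤ × ℤ // c ∈ CC f} where
  Adj a b := T f a.1 b.1 ∨ T f b.1 a.1
  symm := ⟨fun a b h => h.symm⟩
  loopless := ⟨fun a h => by
    have : ∀ c : ℤ × ℤ, ¬ T f c c := by
      rintro c (h | ⟨h, -⟩)
      · have := congrArg Prod.snd h
        simp only at this
        omega
      · have := congrArg Prod.fst h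
        simp only at this
        omega
    exact h.elim (this _) (this _)⟩

/-- reachability of cells -/
def Rc (f : ZMod m → ℤ × ℤ) (a b : ℤ × ℤ) : Prop :=
  ∃ (ha : a ∈ CC f) (hb : b ∈ CC f), (Gr f).Reachable ⟨a, ha⟩ ⟨b, hb⟩

lemma Rc.symm {a b : ℤ × ℤ} (h : Rc f a b) : Rc f b a := by
  obtain ⟨ha, hb, h⟩ := h
  exact ⟨hb, ha, h.symm⟩

lemma Rc.trans {a b c : ℤ × ℤ} (h : Rc f a b) (h' : Rc f b c) : Rc f a c := by
  obtain ⟨ha, hb, h⟩ := h
  obtain ⟨_, hc, h'⟩ := h'
  exact ⟨ha, hc, h.trans h'⟩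

lemma Rc.refl (hf : IsLoop m f) {a : ℤ × ℤ} (h : Encl m f a) : Rc f a a :=
  ⟨(mem_CC hf).mpr h, (mem_CC hf).mpr h, SimpleGraph.Reachable.refl _⟩

lemma Rc.of_T (hf : IsLoop m f) {a b : ℤ × ℤ} (ha : Encl m f a) (hb : Encl m f b) (h : T f a b) :
    Rc f a b :=
  ⟨(mem_CC hf).mpr ha, (mem_CC hf).mpr hb, SimpleGraph.Adj.reachable (Or.inl h)⟩

lemma vert (hf : IsLoop m f) {x y : ℤ} (ha : Encl m f (x, y)) (hb : Encl m f (x, y - 1)) :
    Rc f (x, y) (x, y - 1) := Rc.of_T hf ha hb (Or.inl rfl)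

lemma horiz (hf : IsLoop m f) : ∀ (n : ℕ) (x y : ℤ), y + m < n → Encl m f (x, y) →
    Encl m f (x - 1, y) → Rc f (x, y) (x - 1, y) := by
  intro n
  induction n with
  | zero =>
    intro x y hn ha hb
    have := g_box hf ha
    simp only at this
    push_cast at hn
    omega
  | succ n ih =>
    intro x y hn ha hb
    by_cases h : Encl m f (x, y - 1) ∧ Encl m f (x - 1, y - 1)
    · have h1 := ih x (y - 1) (by push_cast at hn; omega) h.1 h.2
      exact ((vert hf ha h.1).trans h1).trans (vert hf hb h.2).symm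
    · exact Rc.of_T hf ha hb (Or.inr ⟨rfl, h⟩)

lemma horiz' (hf : IsLoop m f) {x y : ℤ} (ha : Encl m f (x, y)) (hb : Encl m f (x - 1, y)) :
    Rc f (x, y) (x - 1, y) := by
  refine horiz hf (y + m + 1).toNat x y ?_ ha hb
  have := g_box hf ha
  simp only at this
  omega

/-- two enclosed cells at distance one are connected -/
lemma nb (hf : IsLoop m f) {a b : ℤ × ℤ} (ha : Encl m f a) (hb : Encl m f b)
    (h : (b.1 = a.1 + 1 ∧ b.2 = a.2) ∨ (b.1 = a.1 - 1 ∧ b.2 = a.2) ∨ (b.1 = a.1 ∧ b.2 = a.2 + 1) ∨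
      (b.1 = a.1 ∧ b.2 = a.2 - 1)) : Rc f a b := by
  obtain ⟨x, y⟩ := a
  obtain ⟨z, w⟩ := b
  simp only at h
  rcases h with ⟨rfl, rfl⟩ | ⟨rfl, rfl⟩ | ⟨rfl, rfl⟩ | ⟨rfl, rfl⟩
  · have := horiz' hf (x := x + 1) (y := w) hb (by rw [add_sub_cancel_right]; exact ha)
    rw [add_sub_cancel_right] at this
    exact this.symm
  · exact horiz' hf ha hb
  · have := vert hf (x := z) (y := y + 1) hb (by rw [add_sub_cancel_right]; exact ha)
    rw [add_sub_cancel_right] at this
    exact this.symm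
  · exact vert hf ha hb

lemma next_left (hm : 4 ≤ m) (hf : IsLoop m f) (hc : CCW f) (k : ZMod m) :
    Rc f (lc (f k) (f (k+1))) (lc (f (k+1)) (f (k+1+1))) := by
  obtain ⟨h1, h2, h3, h4, h5⟩ := turn_facts hm hf.2.1 hf.2.2 k
  have e0 := hc k
  have e1 := hc (k + 1)
  rcases h5 with ⟨_, _, h⟩ | ⟨_, h, _⟩ | ⟨hR, h, _⟩
  · rw [h]; exact Rc.refl hf e0
  · apply nb hf e0 e1
    rw [h]
    rcases step_cases hf.2.2 k with ⟨p1, p2⟩ | ⟨p1, p2⟩ | ⟨p1, p2⟩ | ⟨p1, p2⟩ <;>
      simp only [lc, al] <;> omega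
  · have e2 := (h3 hR).mpr e0
    refine (nb hf e0 e2 ?_).trans (nb hf e2 e1 ?_)
    · rcases step_cases hf.2.2 k with ⟨p1, p2⟩ | ⟨p1, p2⟩ | ⟨p1, p2⟩ | ⟨p1, p2⟩ <;>
        simp only [lc, al] <;> omega
    · rw [h]
      rcases step_cases hf.2.2 k with ⟨p1, p2⟩ | ⟨p1, p2⟩ | ⟨p1, p2⟩ | ⟨p1, p2⟩ <;>
        simp only [ar, al] <;> omega

lemma left_all (hm : 4 ≤ m) (hf : IsLoop m f) (hc : CCW f) (k : ZMod m) :
    Rc f (lc (f 0) (f (0+1))) (lc (f k) (f (k+1))) := by
  have h : ∀ j : ℕ, Rc f (lc (f 0) (f (0+1))) (lc (f (j : ZMod m)) (f ((j : ZMod m)+1))) := by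
    intro j
    induction j with
    | zero => simpa using Rc.refl hf (hc 0)
    | succ j ih =>
      push_cast
      exact ih.trans (next_left hm hf hc j)
  have := h k.val
  rwa [ZMod.natCast_zmod_val] at this

lemma up (hm : 4 ≤ m) (hf : IsLoop m f) (hc : CCW f) : ∀ (n : ℕ) (x y : ℤ), (m : ℤ) - y < n →
    Encl m f (x, y) → ∃ k, Rc f (x, y) (lc (f k) (f (k+1))) := by
  intro n
  induction n with
  | zero =>
    intro x y hn ha
    have := g_box hf ha
    simp only at this
    push_cast at hn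
    omega
  | succ n ih =>
    intro x y hn ha
    by_cases h : Encl m f (x, y + 1)
    · obtain ⟨k, hk⟩ := ih x (y + 1) (by push_cast at hn; omega) h
      exact ⟨k, (nb hf ha h (by simp)).trans hk⟩
    · have h1 := encl_v hm hf.2.1 hf.2.2 x (y + 1)
      rw [add_sub_cancel_right] at h1
      have h2 : Ed f (x, y + 1) (x + 1, y + 1) := by
        by_contra h3
        exact h ((h1.mpr h3).mp ha)
      obtain ⟨k, ⟨a, b⟩ | ⟨a, b⟩⟩ := h2
      · exfalso
        apply h
        have := hc k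
        rw [a, b] at this
        convert this using 1
        simp [lc]
      · refine ⟨k, ?_⟩
        have : lc (f k) (f (k+1)) = (x, y) := by
          rw [a, b]
          simp only [lc]
          exact Prod.ext (by simp only; omega) (by simp only; omega)
        rw [this]
        exact Rc.refl hf ha

theorem conn (hm : 4 ≤ m) (hf : IsLoop m f) (hc : CCW f) : (Gr f).Connected := by
  have h0 := (mem_CC hf).mpr (hc 0)
  have hr : ∀ a (ha : a ∈ CC f), Rc f (lc (f 0) (f (0+1))) a := by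
    intro a ha
    have ha' := (mem_CC hf).mp ha
    obtain ⟨k, hk⟩ := up hm hf hc ((m : ℤ) - a.2 + 1).toNat a.1 a.2 (by
      have := g_box hf ha'
      omega) ha'
    exact (left_all hm hf hc k).trans hk.symm
  haveI : Nonempty {c : ℤ × ℤ // c ∈ CC f} := ⟨⟨_, h0⟩⟩
  refine SimpleGraph.Connected.mk ?_
  rintro ⟨a, ha⟩ ⟨b, hb⟩
  obtain ⟨_, _, h1⟩ := (hr a ha).symm.trans (hr b hb)
  exact h1

lemma mem_Bx_of (hf : IsLoop m f) {c : ℤ × ℤ} (h : Encl m f c) : c ∈ Bx m := by
  have := g_box hf h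
  rw [mem_Bx]
  omega

theorem card_le (hm : 4 ≤ m) (hf : IsLoop m f) (hc : CCW f) :
    (CC f).card ≤ (tV f).card + (tH f).card + 1 := by
  classical
  have h1 := (conn hm hf hc).card_vert_le_card_edgeSet_add_one
  rw [Nat.card_eq_fintype_card, Fintype.card_coe, Nat.card_eq_fintype_card] at h1
  refine h1.trans ?_
  have h2 : Fintype.card (Gr f).edgeSet ≤
      ((tV f).image (fun c => s(c, (c.1, c.2 - 1))) ∪ (tH f).image (fun c => s(c, (c.1 - 1, c.2)))).card := by
    rw [← Fintype.card_coe]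
    refine Fintype.card_le_of_injective (fun e => ⟨Sym2.map Subtype.val e.1, ?_⟩) ?_
    · obtain ⟨e, he⟩ := e
      induction e using Sym2.ind with
      | _ a b =>
        obtain ⟨a, ha⟩ := a
        obtain ⟨b, hb⟩ := b
        have ha' := (mem_CC hf).mp ha
        have hb' := (mem_CC hf).mp hb
        rw [SimpleGraph.mem_edgeSet] at he
        simp only [Sym2.map_pair_eq, Finset.mem_union, Finset.mem_image]
        rcases he with (h | ⟨h, h'⟩) | (h | ⟨h, h'⟩)
        · simp only at h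
          subst h
          left
          refine ⟨a, ?_, rfl⟩
          unfold tV
          rw [Finset.mem_filter]
          exact ⟨mem_Bx_of hf ha', ha', hb'⟩
        · simp only at h h'
          subst h
          right
          refine ⟨a, ?_, rfl⟩
          unfold tH
          rw [Finset.mem_filter]
          exact ⟨mem_Bx_of hf ha', ha', hb', h'⟩
        · simp only at h
          subst h
          left
          refine ⟨b, ?_, Sym2.eq_swap⟩
          unfold tV
          rw [Finset.mem_filter]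
          exact ⟨mem_Bx_of hf hb', hb', ha'⟩
        · simp only at h h'
          subst h
          right
          refine ⟨b, ?_, Sym2.eq_swap⟩
          unfold tH
          rw [Finset.mem_filter]
          exact ⟨mem_Bx_of hf hb', hb', ha', h'⟩
    · intro e e' h
      simp only [Subtype.mk.injEq] at h
      exact Subtype.ext (Sym2.map.injective Subtype.val_injective h)
  have h3 := Finset.card_union_le ((tV f).image (fun c => s(c, (c.1, c.2 - 1))))
    ((tH f).image (fun c => s(c, (c.1 - 1, c.2))))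
  have h4 := Finset.card_image_le (s := tV f) (f := fun c => s(c, (c.1, c.2 - 1)))
  have h5 := Finset.card_image_le (s := tH f) (f := fun c => s(c, (c.1 - 1, c.2)))
  omega

/-- the total turning of a counterclockwise loop is at most one full turn -/
theorem turning (hm : 4 ≤ m) (hf : IsLoop m f) (hc : CCW f) :
    ∑ k : ZMod m, cr (f k) (f (k+1)) (f (k+1+1)) ≤ 4 := by
  rw [sum_cr hm hf hc, sum_K hf]
  have := card_le hm hf hc
  omega

end Pool.Agent.H111S
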