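import Pool.Agent.H111S.Conn

set_option autoImplicit false
set_option linter.unusedVariables false
set_option linter.unusedSectionVars false
set_option linter.unusedSimpArgs false
set_option maxHeartbeats 4000000

/-!
# Exploration of closed loops in a random colouring of the cells
-/

namespace Pool.Agent.H111S

open Finset Pool.Agent.H924P

variable {m : ℕ} [NeZero m] {f : ZMod m → ℤ × ℤ}

/-- number of right turns -/
noncomputable def nR (f : ZMod m → ℤ × ℤ) : ℕ := by
  classical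
  exact (univ.filter (fun k : ZMod m => cr (f k) (f (k+1)) (f (k+1+1)) = -1)).card

/-- number of left turns -/
noncomputable def nL (f : ZMod m → ℤ × ℤ) : ℕ := by
  classical
  exact (univ.filter (fun k : ZMod m => cr (f k) (f (k+1)) (f (k+1+1)) = 1)).card

lemma nL_le (hm : 4 ≤ m) (hf : IsLoop m f) (hc : CCW f) : nL f ≤ nR f + 4 := by
  classical
  have h := turning hm hf hc
  have e : ∀ k : ZMod m, cr (f k) (f (k+1)) (f (k+1+1)) =
      (if cr (f k) (f (k+1)) (f (k+1+1)) = 1 then 1 else 0) -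
      (if cr (f k) (f (k+1)) (f (k+1+1)) = -1 then 1 else 0) := by
    intro k
    rcases (turn_facts hm hf.2.1 hf.2.2 k).2.2.2.2 with ⟨h, _⟩ | ⟨h, _⟩ | ⟨h, _⟩ <;> rw [h] <;>
      norm_num
  rw [Finset.sum_congr rfl fun k _ => e k, Finset.sum_sub_distrib, Finset.sum_boole,
    Finset.sum_boole] at h
  unfold nL nR
  omega

/-- open cells -/
noncomputable def OO (f : ZMod m → ℤ × ℤ) : Finset (ℤ × ℤ) := by
  classical
  exact (univ.image (fun k : ZMod m => lc (f k) (f (k+1)))) ∪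
    ((univ.filter (fun k : ZMod m => cr (f k) (f (k+1)) (f (k+1+1)) = -1)).image
      (fun k => al (f k) (f (k+1))))

/-- closed cells -/
noncomputable def QQ (f : ZMod m → ℤ × ℤ) : Finset (ℤ × ℤ) := by
  classical
  exact univ.image (fun k : ZMod m => rc (f k) (f (k+1)))

lemma mem_QQ (k : ZMod m) : rc (f k) (f (k+1)) ∈ QQ f := by
  classical
  unfold QQ
  exact Finset.mem_image.mpr ⟨k, Finset.mem_univ _, rfl⟩

lemma mem_OO (k : ZMod m) : lc (f k) (f (k+1)) ∈ OO f := by
  classical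
  unfold OO
  exact Finset.mem_union_left _ (Finset.mem_image.mpr ⟨k, Finset.mem_univ _, rfl⟩)

lemma mem_OO' (k : ZMod m) (h : cr (f k) (f (k+1)) (f (k+1+1)) = -1) :
    al (f k) (f (k+1)) ∈ OO f := by
  classical
  unfold OO
  exact Finset.mem_union_right _ (Finset.mem_image.mpr
    ⟨k, Finset.mem_filter.mpr ⟨Finset.mem_univ _, h⟩, rfl⟩)

lemma OO_encl (hm : 4 ≤ m) (hf : IsLoop m f) (hc : CCW f) {c : ℤ × ℤ} (h : c ∈ OO f) :
    Encl m f c := by
  classical
  unfold OO at h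
  rcases Finset.mem_union.mp h with h | h
  · obtain ⟨k, -, rfl⟩ := Finset.mem_image.mp h
    exact hc k
  · obtain ⟨k, hk, rfl⟩ := Finset.mem_image.mp h
    exact ((turn_facts hm hf.2.1 hf.2.2 k).2.2.1 (Finset.mem_filter.mp hk).2).mpr (hc k)

lemma QQ_encl (hm : 4 ≤ m) (hf : IsLoop m f) (hc : CCW f) {c : ℤ × ℤ} (h : c ∈ QQ f) :
    ¬ Encl m f c := by
  classical
  unfold QQ at h
  obtain ⟨k, -, rfl⟩ := Finset.mem_image.mp h
  exact (turn_facts hm hf.2.1 hf.2.2 k).2.1.mp (hc k)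

lemma OO_card (hm : 4 ≤ m) (hf : IsLoop m f) (hc : CCW f) : (OO f).card ≤ area m f := by
  rw [area_eq hf]
  exact Finset.card_le_card fun c h => (mem_CC hf).mpr (OO_encl hm hf hc h)

lemma OO_box (hm : 4 ≤ m) (hf : IsLoop m f) (hc : CCW f) : OO f ⊆ Bx m :=
  fun c h => mem_Bx_of hf (OO_encl hm hf hc h)

lemma QQ_box (hf : IsLoop m f) : QQ f ⊆ Bx m := by
  classical
  intro c h
  unfold QQ at h
  obtain ⟨k, -, rfl⟩ := Finset.mem_image.mp h
  have h1 := loop_bound hf k
  have h2 := loop_bound hf (k + 1)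
  rw [abs_le, abs_le] at h1 h2
  rw [mem_Bx]
  rcases step_cases hf.2.2 k with ⟨p1, p2⟩ | ⟨p1, p2⟩ | ⟨p1, p2⟩ | ⟨p1, p2⟩ <;>
    simp only [rc] <;> omega

lemma image_card {α : Type*} [DecidableEq α] (h : ZMod m → α) :
    (univ.image h).card ≤ 1 + (univ.filter (fun k => h (k + 1) ≠ h k)).card := by
  have hsub : univ.image h ⊆ insert (h 0) ((univ.filter (fun k => h (k + 1) ≠ h k)).image
      (fun k => h (k + 1))) := by
    have hj : ∀ j : ℕ, h (j : ZMod m) ∈ insert (h 0)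
        ((univ.filter (fun k => h (k + 1) ≠ h k)).image (fun k => h (k + 1))) := by
      intro j
      induction j with
      | zero => simp
      | succ j ih =>
        by_cases e : h ((j : ZMod m) + 1) = h (j : ZMod m)
        · push_cast
          rw [e]
          exact ih
        · push_cast
          apply Finset.mem_insert_of_mem
          exact Finset.mem_image.mpr ⟨j, Finset.mem_filter.mpr ⟨Finset.mem_univ _, e⟩, rfl⟩
    intro x hx
    obtain ⟨k, -, rfl⟩ := Finset.mem_image.mp hx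
    have := hj k.val
    rwa [ZMod.natCast_zmod_val] at this
  refine (Finset.card_le_card hsub).trans ((Finset.card_insert_le _ _).trans ?_)
  have := Finset.card_image_le (s := univ.filter (fun k => h (k + 1) ≠ h k))
    (f := fun k => h (k + 1))
  omega

lemma QQ_card (hm : 4 ≤ m) (hf : IsLoop m f) : (QQ f).card ≤ m + 1 - nR f := by
  classical
  have h1 : (QQ f).card ≤ 1 + _ := image_card (fun k : ZMod m => rc (f k) (f (k+1)))
  have h2 : (univ.filter (fun k : ZMod m => rc (f (k+1)) (f (k+1+1)) ≠ rc (f k) (f (k+1)))).card ≤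
      (univ.filter (fun k : ZMod m => ¬ cr (f k) (f (k+1)) (f (k+1+1)) = -1)).card := by
    apply Finset.card_le_card
    intro k hk
    rw [Finset.mem_filter] at hk ⊢
    refine ⟨hk.1, fun h => hk.2 ?_⟩
    rcases (turn_facts hm hf.2.1 hf.2.2 k).2.2.2.2 with ⟨a, _⟩ | ⟨a, _⟩ | ⟨_, _, a⟩
    · rw [a] at h; norm_num at h
    · rw [a] at h; norm_num at h
    · exact a
  have h3 := Finset.card_filter_add_card_filter_not (s := (univ : Finset (ZMod m)))
    (p := fun k => cr (f k) (f (k+1)) (f (k+1+1)) = -1)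
  rw [Finset.card_univ, ZMod.card] at h3
  unfold nR
  omega

/-- a unit step -/
def St (p v : ℤ × ℤ) : Prop := (v.1 = p.1 + 1 ∧ v.2 = p.2) ∨ (v.1 = p.1 - 1 ∧ v.2 = p.2) ∨
  (v.1 = p.1 ∧ v.2 = p.2 + 1) ∨ (v.1 = p.1 ∧ v.2 = p.2 - 1)

lemma next_eq {p v q q' : ℤ × ℤ} (h1 : St p v) (h2 : St v q) (h3 : St v q') (h4 : q ≠ p)
    (h5 : q' ≠ p) (h : cr p v q = cr p v q') : q = q' := by
  have h4' : ¬ (q.1 = p.1 ∧ q.2 = p.2) := fun h => h4 (Prod.ext h.1 h.2)
  have h5' : ¬ (q'.1 = p.1 ∧ q'.2 = p.2) := fun h => h5 (Prod.ext h.1 h.2)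
  unfold St at h1 h2 h3
  unfold cr at h
  suffices hh : q.1 = q'.1 ∧ q.2 = q'.2 from Prod.ext hh.1 hh.2
  rcases h1 with ⟨a, b⟩ | ⟨a, b⟩ | ⟨a, b⟩ | ⟨a, b⟩
  · have e1 : v.1 - p.1 = 1 := by omega
    have e2 : v.2 - p.2 = 0 := by omega
    rw [e1, e2] at h
    omega
  · have e1 : v.1 - p.1 = -1 := by omega
    have e2 : v.2 - p.2 = 0 := by omega
    rw [e1, e2] at h
    omega
  · have e1 : v.1 - p.1 = 0 := by omega
    have e2 : v.2 - p.2 = 1 := by omega
    rw [e1, e2] at h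
    omega
  · have e1 : v.1 - p.1 = 0 := by omega
    have e2 : v.2 - p.2 = -1 := by omega
    rw [e1, e2] at h
    omega

lemma k2_ne (hm : 4 ≤ m) (hinj : Function.Injective f) (k : ZMod m) : f (k + 1 + 1) ≠ f k := by
  intro h
  have h := hinj h
  rw [add_assoc] at h
  exact two_ne hm (by simpa using h)

/-- the colouring determines the loop -/
lemma determ (hm : 4 ≤ m) {f f' : ZMod m → ℤ × ℤ} (hf : IsLoop m f) (hf' : IsLoop m f')
    (h01 : f (0 + 1) = f' (0 + 1)) (S : Finset (ℤ × ℤ)) (h1 : OO f ⊆ S) (h2 : Disjoint (QQ f) S)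
    (h1' : OO f' ⊆ S) (h2' : Disjoint (QQ f') S) : f = f' := by
  have key : ∀ {f : ZMod m → ℤ × ℤ} (hf : IsLoop m f) (h1 : OO f ⊆ S) (h2 : Disjoint (QQ f) S)
      (k : ZMod m), (cr (f k) (f (k+1)) (f (k+1+1)) = 1 ∧ al (f k) (f (k+1)) ∉ S) ∨
      (cr (f k) (f (k+1)) (f (k+1+1)) = 0 ∧ al (f k) (f (k+1)) ∈ S ∧ ar (f k) (f (k+1)) ∉ S) ∨
      (cr (f k) (f (k+1)) (f (k+1+1)) = -1 ∧ al (f k) (f (k+1)) ∈ S ∧ ar (f k) (f (k+1)) ∈ S) := by
    intro f hf h1 h2 k
    rcases (turn_facts hm hf.2.1 hf.2.2 k).2.2.2.2 with ⟨a, b, c⟩ | ⟨a, b, c⟩ | ⟨a, b, c⟩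
    · refine Or.inl ⟨a, ?_⟩
      rw [← b]
      exact Finset.disjoint_left.mp h2 (mem_QQ (k + 1))
    · refine Or.inr (Or.inl ⟨a, ?_, ?_⟩)
      · rw [← b]; exact h1 (mem_OO (k + 1))
      · rw [← c]; exact Finset.disjoint_left.mp h2 (mem_QQ (k + 1))
    · refine Or.inr (Or.inr ⟨a, h1 (mem_OO' k a), ?_⟩)
      rw [← b]; exact h1 (mem_OO (k + 1))
  have h : ∀ j : ℕ, f (j : ZMod m) = f' (j : ZMod m) ∧ f ((j : ZMod m) + 1) = f' ((j : ZMod m) + 1) := by
    intro j
    induction j with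
    | zero => simpa using ⟨hf.1.trans hf'.1.symm, by simpa using h01⟩
    | succ j ih =>
      obtain ⟨e1, e2⟩ := ih
      push_cast
      refine ⟨e2, ?_⟩
      have a := key hf h1 h2 (j : ZMod m)
      have b := key hf' h1' h2' (j : ZMod m)
      rw [← e1, ← e2] at b
      refine next_eq (p := f (j : ZMod m)) (v := f ((j : ZMod m) + 1)) (step_cases hf.2.2 _)
        (step_cases hf.2.2 _) ?_ (k2_ne hm hf.2.1 _) ?_ ?_
      · rw [e2]; exact step_cases hf'.2.2 _
      · rw [e1]; exact k2_ne hm hf'.2.1 _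
      · rcases a with ⟨a, a1⟩ | ⟨a, a1, a2⟩ | ⟨a, a1, a2⟩ <;>
          rcases b with ⟨b, b1⟩ | ⟨b, b1, b2⟩ | ⟨b, b1, b2⟩ <;>
          first | exact a.trans b.symm | exact absurd a1 b1 | exact absurd b1 a1 |
            exact absurd a2 b2 | exact absurd b2 a2
  funext k
  have := (h k.val).1
  rwa [ZMod.natCast_zmod_val] at this

lemma cyl {α : Type*} [DecidableEq α] (Λ O Q : Finset α) (hO : O ⊆ Λ) (hQ : Q ⊆ Λ)
    (hd : Disjoint O Q) (p q : ℝ) (hp : 0 ≤ p) (hq : 0 ≤ q) (hpq : p + q = 1) :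
    p ^ O.card * q ^ Q.card ≤ ∑ S ∈ Λ.powerset.filter (fun S => O ⊆ S ∧ Disjoint Q S),
      p ^ S.card * q ^ (Λ.card - S.card) := by
  have h1 : ∑ S ∈ (Λ \ (O ∪ Q)).powerset, p ^ S.card * q ^ ((Λ \ (O ∪ Q)).card - S.card) = 1 := by
    rw [Finset.sum_pow_mul_eq_add_pow, hpq, one_pow]
  have hOQ : O ∪ Q ⊆ Λ := Finset.union_subset hO hQ
  have hc : (Λ \ (O ∪ Q)).card + (O.card + Q.card) = Λ.card := by
    rw [← Finset.card_union_of_disjoint hd, Finset.card_sdiff_add_card_eq_card hOQ]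
  calc p ^ O.card * q ^ Q.card = ∑ S ∈ (Λ \ (O ∪ Q)).powerset,
        (p ^ S.card * q ^ ((Λ \ (O ∪ Q)).card - S.card)) * (p ^ O.card * q ^ Q.card) := by
        rw [← Finset.sum_mul, h1, one_mul]
    _ = ∑ S ∈ (Λ \ (O ∪ Q)).powerset, p ^ (S ∪ O).card * q ^ (Λ.card - (S ∪ O).card) := by
        refine Finset.sum_congr rfl fun S hS => ?_
        rw [Finset.mem_powerset] at hS
        have hSO : Disjoint S O := by
          rw [Finset.disjoint_left]
          intro x hx hx'
          exact (Finset.mem_sdiff.mp (hS hx)).2 (Finset.mem_union_left _ hx')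
        have hle := Finset.card_le_card hS
        rw [Finset.card_union_of_disjoint hSO]
        have : Λ.card - (S.card + O.card) = ((Λ \ (O ∪ Q)).card - S.card) + Q.card := by omega
        rw [this, pow_add, pow_add]
        ring
    _ = ∑ S' ∈ ((Λ \ (O ∪ Q)).powerset).image (fun S => S ∪ O),
        p ^ S'.card * q ^ (Λ.card - S'.card) := by
        rw [Finset.sum_image]
        intro S hS S' hS' h
        rw [Finset.mem_coe, Finset.mem_powerset] at hS hS'
        have aux : ∀ {S S' : Finset α}, S ⊆ Λ \ (O ∪ Q) → S ∪ O = S' ∪ O → S ⊆ S' := by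
          intro S S' hS h x hx
          have hx' : x ∈ S' ∪ O := h ▸ Finset.mem_union_left _ hx
          rcases Finset.mem_union.mp hx' with h' | h'
          · exact h'
          · exact absurd (Finset.mem_union_left _ h') (Finset.mem_sdiff.mp (hS hx)).2
        exact Finset.Subset.antisymm (aux hS h) (aux hS' h.symm)
    _ ≤ _ := by
        apply Finset.sum_le_sum_of_subset_of_nonneg
        · intro S' hS'
          obtain ⟨S, hS, rfl⟩ := Finset.mem_image.mp hS'
          rw [Finset.mem_powerset] at hS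
          rw [Finset.mem_filter, Finset.mem_powerset]
          refine ⟨Finset.union_subset (hS.trans Finset.sdiff_subset) hO,
            Finset.subset_union_right, ?_⟩
          rw [Finset.disjoint_union_right]
          refine ⟨?_, hd.symm⟩
          rw [Finset.disjoint_left]
          intro x hx hx'
          exact (Finset.mem_sdiff.mp (hS hx')).2 (Finset.mem_union_right _ hx)
        · intro S _ _
          positivity

/-- the exploration inequality -/
theorem explore (hm : 4 ≤ m) (δ : ℤ × ℤ) (F : Finset (ZMod m → ℤ × ℤ))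
    (hF : ∀ f ∈ F, IsLoop m f ∧ CCW f ∧ f (0 + 1) = δ) (p q : ℝ) (hp : 0 ≤ p) (hq : 0 ≤ q)
    (hpq : p + q = 1) : ∑ f ∈ F, p ^ (area m f) * q ^ (m + 1 - nR f) ≤ 1 := by
  classical
  have hp1 : p ≤ 1 := by linarith
  have hq1 : q ≤ 1 := by linarith
  have h1 : ∀ f ∈ F, p ^ (area m f) * q ^ (m + 1 - nR f) ≤
      ∑ S ∈ (Bx m).powerset.filter (fun S => OO f ⊆ S ∧ Disjoint (QQ f) S),
        p ^ S.card * q ^ ((Bx m).card - S.card) := by
    intro f hf
    obtain ⟨a, b, c⟩ := hF f hf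
    refine le_trans ?_ (cyl (Bx m) (OO f) (QQ f) (OO_box hm a b) (QQ_box a) ?_ p q hp hq hpq)
    · exact mul_le_mul (pow_le_pow_of_le_one hp hp1 (OO_card hm a b))
        (pow_le_pow_of_le_one hq hq1 (QQ_card hm a)) (by positivity) (by positivity)
    · rw [Finset.disjoint_left]
      intro x hx hx'
      exact QQ_encl hm a b hx' (OO_encl hm a b hx)
  refine (Finset.sum_le_sum h1).trans ?_
  have h2 : ∑ f ∈ F, ∑ S ∈ (Bx m).powerset.filter (fun S => OO f ⊆ S ∧ Disjoint (QQ f) S),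
        p ^ S.card * q ^ ((Bx m).card - S.card) =
      ∑ S ∈ (Bx m).powerset, ∑ f ∈ F.filter (fun f => OO f ⊆ S ∧ Disjoint (QQ f) S),
        p ^ S.card * q ^ ((Bx m).card - S.card) := by
    apply Finset.sum_comm'
    intro f S
    simp only [Finset.mem_filter]
    tauto
  rw [h2]
  calc ∑ S ∈ (Bx m).powerset, ∑ f ∈ F.filter (fun f => OO f ⊆ S ∧ Disjoint (QQ f) S),
        p ^ S.card * q ^ ((Bx m).card - S.card)
      ≤ ∑ S ∈ (Bx m).powerset, p ^ S.card * q ^ ((Bx m).card - S.card) := by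
        refine Finset.sum_le_sum fun S _ => ?_
        rw [Finset.sum_const, nsmul_eq_mul]
        have hcard : (F.filter (fun f => OO f ⊆ S ∧ Disjoint (QQ f) S)).card ≤ 1 := by
          rw [Finset.card_le_one]
          intro f hf f' hf'
          rw [Finset.mem_filter] at hf hf'
          obtain ⟨a, b, c⟩ := hF f hf.1
          obtain ⟨a', b', c'⟩ := hF f' hf'.1
          exact determ hm a a' (c.trans c'.symm) S hf.2.1 hf.2.2 hf'.2.1 hf'.2.2
        have : ((F.filter (fun f => OO f ⊆ S ∧ Disjoint (QQ f) S)).card : ℝ) ≤ 1 := by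
          exact_mod_cast hcard
        nlinarith [show 0 ≤ p ^ S.card * q ^ ((Bx m).card - S.card) by positivity]
    _ = 1 := by rw [Finset.sum_pow_mul_eq_add_pow, hpq, one_pow]

end Pool.Agent.H111S
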