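import Pool.Agent.H111S.Cnt

set_option autoImplicit false
set_option linter.unusedVariables false
set_option linter.unusedSectionVars false
set_option linter.unusedSimpArgs false
set_option maxHeartbeats 4000000

/-!
# Exploration of closed loops with two kinds of queries
-/

namespace Pool.Agent.H111S

open Finset Pool.Agent.H924P

lemma cyl2 {α : Type*} [DecidableEq α] (Λ O Q : Finset α) (hO : O ⊆ Λ) (hQ : Q ⊆ Λ)
    (hd : Disjoint O Q) (P : α → ℝ) (h0 : ∀ a, 0 ≤ P a) (h1 : ∀ a, P a ≤ 1) :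
    (∏ a ∈ O, P a) * (∏ a ∈ Q, (1 - P a)) ≤
      ∑ S ∈ Λ.powerset.filter (fun S => O ⊆ S ∧ Disjoint Q S),
      (∏ a ∈ S, P a) * (∏ a ∈ Λ \ S, (1 - P a)) := by
  have hn : ∀ a, 0 ≤ 1 - P a := fun a => by linarith [h1 a]
  have e1 : ∑ S ∈ (Λ \ (O ∪ Q)).powerset, (∏ a ∈ S, P a) *
      (∏ a ∈ (Λ \ (O ∪ Q)) \ S, (1 - P a)) = 1 := by
    rw [← Finset.prod_add]
    simp
  calc (∏ a ∈ O, P a) * (∏ a ∈ Q, (1 - P a)) = ∑ S ∈ (Λ \ (O ∪ Q)).powerset,
        ((∏ a ∈ S, P a) * (∏ a ∈ (Λ \ (O ∪ Q)) \ S, (1 - P a))) *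
          ((∏ a ∈ O, P a) * (∏ a ∈ Q, (1 - P a))) := by
        rw [← Finset.sum_mul, e1, one_mul]
    _ = ∑ S ∈ (Λ \ (O ∪ Q)).powerset, (∏ a ∈ S ∪ O, P a) * (∏ a ∈ Λ \ (S ∪ O), (1 - P a)) := by
        refine Finset.sum_congr rfl fun S hS => ?_
        rw [Finset.mem_powerset] at hS
        have hSO : Disjoint S O := by
          rw [Finset.disjoint_left]
          intro x hx hx'
          exact (Finset.mem_sdiff.mp (hS hx)).2 (Finset.mem_union_left _ hx')
        have hset : Λ \ (S ∪ O) = ((Λ \ (O ∪ Q)) \ S) ∪ Q := by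
          ext x
          simp only [Finset.mem_sdiff, Finset.mem_union]
          constructor
          · rintro ⟨a, b⟩
            by_cases hq : x ∈ Q
            · exact Or.inr hq
            · exact Or.inl ⟨⟨a, fun h => h.elim (fun h => b (Or.inr h)) hq⟩,
                fun h => b (Or.inl h)⟩
          · rintro (⟨⟨a, b⟩, c⟩ | hq)
            · exact ⟨a, fun h => h.elim c (fun h => b (Or.inl h))⟩
            · refine ⟨hQ hq, fun h => h.elim (fun h => ?_) (fun h => ?_)⟩
              · exact (Finset.mem_sdiff.mp (hS h)).2 (Finset.mem_union_right _ hq)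
              · exact Finset.disjoint_left.mp hd h hq
        have hdis : Disjoint ((Λ \ (O ∪ Q)) \ S) Q := by
          rw [Finset.disjoint_left]
          intro x hx hx'
          exact (Finset.mem_sdiff.mp (Finset.mem_sdiff.mp hx).1).2 (Finset.mem_union_right _ hx')
        rw [hset, Finset.prod_union hSO, Finset.prod_union hdis]
        ring
    _ = ∑ S' ∈ ((Λ \ (O ∪ Q)).powerset).image (fun S => S ∪ O),
        (∏ a ∈ S', P a) * (∏ a ∈ Λ \ S', (1 - P a)) := by
        rw [Finset.sum_image]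
        intro S hS S' hS' h
        rw [Finset.mem_coe, Finset.mem_powerset] at hS hS'
        have aux : ∀ {S S' : Finset α}, S ⊆ Λ \ (O ∪ Q) → S ∪ O = S' ∪ O → S ⊆ S' := by
          intro S S' hS h x hx
          have hx' : x ∈ S' ∪ O := h ▸ Finset.mem_union_left _ hx
          rcases Finset.mem_union.mp hx' with h' | h'
          · exact h'
          · exact absurd (Finset.mem_union_left _ h') (Finset.mem_sdiff.mp (hS hx)).2
        exact Finset.Subset.antisymm (aux hS h) (aux hS' h.symm)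
    _ ≤ _ := by
        apply Finset.sum_le_sum_of_subset_of_nonneg
        · intro S' hS'
          obtain ⟨S, hS, rfl⟩ := Finset.mem_image.mp hS'
          rw [Finset.mem_powerset] at hS
          rw [Finset.mem_filter, Finset.mem_powerset]
          refine ⟨Finset.union_subset (hS.trans Finset.sdiff_subset) hO,
            Finset.subset_union_right, ?_⟩
          rw [Finset.disjoint_union_right]
          refine ⟨?_, hd.symm⟩
          rw [Finset.disjoint_left]
          intro x hx hx'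
          exact (Finset.mem_sdiff.mp (hS hx')).2 (Finset.mem_union_right _ hx)
        · intro S _ _
          exact mul_nonneg (Finset.prod_nonneg fun a _ => h0 a) (Finset.prod_nonneg fun a _ => hn a)

variable {m : ℕ} [NeZero m] {f : ZMod m → ℤ × ℤ}

/-- the cell ahead on the left at step `j` -/
def aj (f : ZMod m → ℤ × ℤ) (j : ℕ) : ℤ × ℤ := al (f (j : ZMod m)) (f ((j : ZMod m) + 1))
/-- the cell ahead on the right at step `j` -/
def bj (f : ZMod m → ℤ × ℤ) (j : ℕ) : ℤ × ℤ := ar (f (j : ZMod m)) (f ((j : ZMod m) + 1))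

open Classical in
/-- cells examined before step `j` -/
noncomputable def Kn (f : ZMod m → ℤ × ℤ) : ℕ → Finset (ℤ × ℤ)
  | 0 => ∅
  | j + 1 => Kn f j ∪ (if Encl m f (aj f j) then {aj f j, bj f j} else {aj f j})

lemma Kn_mono (f : ZMod m → ℤ × ℤ) {i j : ℕ} (h : i ≤ j) : Kn f i ⊆ Kn f j := by
  classical
  induction j, h using Nat.le_induction with
  | base => exact Finset.Subset.refl _
  | succ j _ ih => exact ih.trans (by rw [Kn]; exact Finset.subset_union_left)

lemma aj_mem (f : ZMod m → ℤ × ℤ) (j : ℕ) : aj f j ∈ Kn f (j + 1) := by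
  classical
  rw [Kn]
  apply Finset.mem_union_right
  split_ifs <;> simp

lemma bj_mem {j : ℕ} (h : Encl m f (aj f j)) : bj f j ∈ Kn f (j + 1) := by
  classical
  rw [Kn]
  apply Finset.mem_union_right
  rw [if_pos h]
  simp

/-- the turn is decided by the two cells ahead -/
lemma tri (hm : 4 ≤ m) (hf : IsLoop m f) (hc : CCW f) (k : ZMod m) :
    (cr (f k) (f (k+1)) (f (k+1+1)) = 1 ∧ ¬ Encl m f (al (f k) (f (k+1)))) ∨
    (cr (f k) (f (k+1)) (f (k+1+1)) = 0 ∧ Encl m f (al (f k) (f (k+1))) ∧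
      ¬ Encl m f (ar (f k) (f (k+1)))) ∨
    (cr (f k) (f (k+1)) (f (k+1+1)) = -1 ∧ Encl m f (al (f k) (f (k+1))) ∧
      Encl m f (ar (f k) (f (k+1)))) := by
  have h := turn_facts hm hf.2.1 hf.2.2 k
  have h' := turn_facts hm hf.2.1 hf.2.2 (k + 1)
  rcases h.2.2.2.2 with ⟨a, b, c⟩ | ⟨a, b, c⟩ | ⟨a, b, c⟩
  · refine Or.inl ⟨a, ?_⟩
    rw [← b]
    exact h'.2.1.mp (hc (k + 1))
  · refine Or.inr (Or.inl ⟨a, ?_, ?_⟩)
    · rw [← b]; exact hc (k + 1)
    · rw [← c]; exact h'.2.1.mp (hc (k + 1))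
  · refine Or.inr (Or.inr ⟨a, (h.2.2.1 a).mpr (hc k), ?_⟩)
    rw [← b]; exact hc (k + 1)

lemma al_ne_ar (hf : IsLoop m f) (k : ZMod m) : al (f k) (f (k+1)) ≠ ar (f k) (f (k+1)) := by
  intro h
  simp only [al, ar, Prod.mk.injEq] at h
  rcases step_cases hf.2.2 k with ⟨a, b⟩ | ⟨a, b⟩ | ⟨a, b⟩ | ⟨a, b⟩ <;> omega

open Classical in
noncomputable def OA (f : ZMod m → ℤ × ℤ) : Finset (ℤ × ℤ) :=
  ((range m).filter (fun j => aj f j ∉ Kn f j ∧ Encl m f (aj f j))).image (aj f)
open Classical in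
noncomputable def OB (f : ZMod m → ℤ × ℤ) : Finset (ℤ × ℤ) :=
  ((range m).filter (fun j => bj f j ∉ Kn f j ∧ Encl m f (aj f j) ∧ Encl m f (bj f j))).image (bj f)
open Classical in
noncomputable def QA (f : ZMod m → ℤ × ℤ) : Finset (ℤ × ℤ) :=
  ((range m).filter (fun j => aj f j ∉ Kn f j ∧ ¬ Encl m f (aj f j))).image (aj f)
open Classical in
noncomputable def QB (f : ZMod m → ℤ × ℤ) : Finset (ℤ × ℤ) :=
  ((range m).filter (fun j => bj f j ∉ Kn f j ∧ Encl m f (aj f j) ∧ ¬ Encl m f (bj f j))).image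
    (bj f)

/-- tagged open cells -/
noncomputable def TO (f : ZMod m → ℤ × ℤ) : Finset ((ℤ × ℤ) × Bool) :=
  (OA f).image (fun c => (c, false)) ∪ (OB f).image (fun c => (c, true))
/-- tagged closed cells -/
noncomputable def TQ (f : ZMod m → ℤ × ℤ) : Finset ((ℤ × ℤ) × Bool) :=
  (QA f).image (fun c => (c, false)) ∪ (QB f).image (fun c => (c, true))

lemma TO_encl {u : (ℤ × ℤ) × Bool} (h : u ∈ TO f) : Encl m f u.1 := by
  classical
  unfold TO OA OB at h
  simp only [Finset.mem_union, Finset.mem_image, Finset.mem_filter] at h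
  rcases h with ⟨c, ⟨j, ⟨_, _, h⟩, rfl⟩, rfl⟩ | ⟨c, ⟨j, ⟨_, _, _, h⟩, rfl⟩, rfl⟩
  · exact h
  · exact h

lemma TQ_encl {u : (ℤ × ℤ) × Bool} (h : u ∈ TQ f) : ¬ Encl m f u.1 := by
  classical
  unfold TQ QA QB at h
  simp only [Finset.mem_union, Finset.mem_image, Finset.mem_filter] at h
  rcases h with ⟨c, ⟨j, ⟨_, _, h⟩, rfl⟩, rfl⟩ | ⟨c, ⟨j, ⟨_, _, _, h⟩, rfl⟩, rfl⟩
  · exact h
  · exact h

/-- the colouring of the tagged cells determines the loop -/
lemma determ3 (hm : 4 ≤ m) {f f' : ZMod m → ℤ × ℤ} (hf : IsLoop m f) (hf' : IsLoop m f')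
    (hc : CCW f) (hc' : CCW f')
    (h01 : f (0 + 1) = f' (0 + 1)) (S : Finset ((ℤ × ℤ) × Bool)) (h1 : TO f ⊆ S)
    (h2 : Disjoint (TQ f) S) (h1' : TO f' ⊆ S) (h2' : Disjoint (TQ f') S) : f = f' := by
  classical
  have keyA : ∀ {f : ZMod m → ℤ × ℤ} (h1 : TO f ⊆ S) (h2 : Disjoint (TQ f) S) (j : ℕ), j < m →
      aj f j ∉ Kn f j → (Encl m f (aj f j) ↔ (aj f j, false) ∈ S) := by
    intro f h1 h2 j hj hfr
    constructor
    · intro h
      apply h1
      unfold TO OA
      exact Finset.mem_union_left _ (Finset.mem_image.mpr ⟨_, Finset.mem_image.mpr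
        ⟨j, Finset.mem_filter.mpr ⟨Finset.mem_range.mpr hj, hfr, h⟩, rfl⟩, rfl⟩)
    · intro h
      by_contra hn
      refine Finset.disjoint_left.mp h2 ?_ h
      unfold TQ QA
      exact Finset.mem_union_left _ (Finset.mem_image.mpr ⟨_, Finset.mem_image.mpr
        ⟨j, Finset.mem_filter.mpr ⟨Finset.mem_range.mpr hj, hfr, hn⟩, rfl⟩, rfl⟩)
  have keyB : ∀ {f : ZMod m → ℤ × ℤ} (h1 : TO f ⊆ S) (h2 : Disjoint (TQ f) S) (j : ℕ), j < m →
      bj f j ∉ Kn f j → Encl m f (aj f j) → (Encl m f (bj f j) ↔ (bj f j, true) ∈ S) := by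
    intro f h1 h2 j hj hfr ha
    constructor
    · intro h
      apply h1
      unfold TO OB
      exact Finset.mem_union_right _ (Finset.mem_image.mpr ⟨_, Finset.mem_image.mpr
        ⟨j, Finset.mem_filter.mpr ⟨Finset.mem_range.mpr hj, hfr, ha, h⟩, rfl⟩, rfl⟩)
    · intro h
      by_contra hn
      refine Finset.disjoint_left.mp h2 ?_ h
      unfold TQ QB
      exact Finset.mem_union_right _ (Finset.mem_image.mpr ⟨_, Finset.mem_image.mpr
        ⟨j, Finset.mem_filter.mpr ⟨Finset.mem_range.mpr hj, hfr, ha, hn⟩, rfl⟩, rfl⟩)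
  have h : ∀ j : ℕ, j ≤ m → f (j : ZMod m) = f' (j : ZMod m) ∧
      f ((j : ZMod m) + 1) = f' ((j : ZMod m) + 1) ∧ Kn f j = Kn f' j ∧
      ∀ c ∈ Kn f j, (Encl m f c ↔ Encl m f' c) := by
    intro j
    induction j with
    | zero =>
      intro _
      refine ⟨by simpa using hf.1.trans hf'.1.symm, by simpa using h01, rfl, ?_⟩
      intro c hc
      rw [Kn] at hc
      simp at hc
    | succ j ih =>
      intro hj
      obtain ⟨e1, e2, e3, e4⟩ := ih (by omega)
      have ha : aj f j = aj f' j := by unfold aj; rw [e1, e2]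
      have hb : bj f j = bj f' j := by unfold bj; rw [e1, e2]
      have hEa : Encl m f (aj f j) ↔ Encl m f' (aj f j) := by
        by_cases hk : aj f j ∈ Kn f j
        · exact e4 _ hk
        · have hk' : aj f' j ∉ Kn f' j := by rw [← ha, ← e3]; exact hk
          have x := keyA h1 h2 j (by omega) hk
          have y := keyA h1' h2' j (by omega) hk'
          rw [← ha] at y
          exact x.trans y.symm
      have hEb : Encl m f (aj f j) → (Encl m f (bj f j) ↔ Encl m f' (bj f j)) := by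
        intro hE
        by_cases hk : bj f j ∈ Kn f j
        · exact e4 _ hk
        · have hk' : bj f' j ∉ Kn f' j := by rw [← hb, ← e3]; exact hk
          have hE' : Encl m f' (aj f' j) := by rw [← ha]; exact hEa.mp hE
          have x := keyB h1 h2 j (by omega) hk hE
          have y := keyB h1' h2' j (by omega) hk' hE'
          rw [← hb] at y
          exact x.trans y.symm
      have hK : Kn f (j + 1) = Kn f' (j + 1) := by
        rw [Kn, Kn, ← e3, ← ha, ← hb]
        by_cases hE : Encl m f (aj f j)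
        · rw [if_pos hE, if_pos (hEa.mp hE)]
        · rw [if_neg hE, if_neg (fun h => hE (hEa.mpr h))]
      have hst : ∀ c ∈ Kn f (j + 1), (Encl m f c ↔ Encl m f' c) := by
        intro c hcm
        rw [Kn] at hcm
        rcases Finset.mem_union.mp hcm with h | h
        · exact e4 c h
        · by_cases hE : Encl m f (aj f j)
          · rw [if_pos hE] at h
            simp only [Finset.mem_insert, Finset.mem_singleton] at h
            rcases h with rfl | rfl
            · exact hEa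
            · exact hEb hE
          · rw [if_neg hE, Finset.mem_singleton] at h
            rw [h]
            exact hEa
      have hnext : f ((j : ZMod m) + 1 + 1) = f' ((j : ZMod m) + 1 + 1) := by
        have a := tri hm hf hc (j : ZMod m)
        have b := tri hm hf' hc' (j : ZMod m)
        have ea : aj f j = al (f (j : ZMod m)) (f ((j : ZMod m) + 1)) := rfl
        have eb : bj f j = ar (f (j : ZMod m)) (f ((j : ZMod m) + 1)) := rfl
        rw [← e1, ← e2, ← ea, ← eb] at b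
        rw [← ea, ← eb] at a
        refine next_eq (p := f (j : ZMod m)) (v := f ((j : ZMod m) + 1)) (step_cases hf.2.2 _)
          (step_cases hf.2.2 _) ?_ (k2_ne hm hf.2.1 _) ?_ ?_
        · rw [e2]; exact step_cases hf'.2.2 _
        · rw [e1]; exact k2_ne hm hf'.2.1 _
        · rcases a with ⟨a, a1⟩ | ⟨a, a1, a2⟩ | ⟨a, a1, a2⟩ <;>
            rcases b with ⟨b, b1⟩ | ⟨b, b1, b2⟩ | ⟨b, b1, b2⟩
          · exact a.trans b.symm
          · exact absurd (hEa.mpr b1) a1
          · exact absurd (hEa.mpr b1) a1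
          · exact absurd (hEa.mp a1) b1
          · exact a.trans b.symm
          · exact absurd ((hEb a1).mpr b2) a2
          · exact absurd (hEa.mp a1) b1
          · exact absurd ((hEb a1).mp a2) b2
          · exact a.trans b.symm
      refine ⟨by push_cast; exact e2, by push_cast; exact hnext, hK, hst⟩
  funext k
  have := (h k.val (ZMod.val_lt k).le).1
  rwa [ZMod.natCast_zmod_val] at this

lemma cast_val (k : ZMod m) : ((k.val : ℕ) : ZMod m) = k := ZMod.natCast_zmod_val k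

lemma count_turn (f : ZMod m → ℤ × ℤ) (t : ℤ) (p : ℕ → Prop) [DecidablePred p]
    (h : ∀ j, p j → cr (f (j : ZMod m)) (f ((j : ZMod m)+1)) (f ((j : ZMod m)+1+1)) = t) :
    ((range m).filter p).card ≤
      (univ.filter (fun k : ZMod m => cr (f k) (f (k+1)) (f (k+1+1)) = t)).card := by
  classical
  apply Finset.card_le_card_of_injOn (fun j : ℕ => (j : ZMod m))
  · intro j hj
    have hj := Finset.mem_filter.mp (Finset.mem_coe.mp hj)
    exact Finset.mem_coe.mpr (Finset.mem_filter.mpr ⟨Finset.mem_univ _, h j hj.2⟩)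
  · intro i hi j hj hij
    have hi := Finset.mem_filter.mp (Finset.mem_coe.mp hi)
    have hj := Finset.mem_filter.mp (Finset.mem_coe.mp hj)
    have h1 := congrArg ZMod.val hij
    simp only at h1
    rwa [ZMod.val_natCast_of_lt (Finset.mem_range.mp hi.1),
      ZMod.val_natCast_of_lt (Finset.mem_range.mp hj.1)] at h1

/-- number of straight vertices -/
noncomputable def nS (f : ZMod m → ℤ × ℤ) : ℕ := by
  classical
  exact (univ.filter (fun k : ZMod m => cr (f k) (f (k+1)) (f (k+1+1)) = 0)).card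

lemma n_sum (hm : 4 ≤ m) (hf : IsLoop m f) : nL f + nS f + nR f = m := by
  classical
  have h : (univ : Finset (ZMod m)).card = m := by rw [Finset.card_univ, ZMod.card]
  refine Eq.trans ?_ h
  unfold nL nS nR
  rw [← Finset.card_union_of_disjoint, ← Finset.card_union_of_disjoint]
  · congr 1
    ext k
    simp only [Finset.mem_union, Finset.mem_filter, Finset.mem_univ, true_and, iff_true]
    rcases (turn_facts hm hf.2.1 hf.2.2 k).2.2.2.2 with ⟨a, _⟩ | ⟨a, _⟩ | ⟨a, _⟩
    · exact Or.inl (Or.inl a)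
    · exact Or.inl (Or.inr a)
    · exact Or.inr a
  · rw [Finset.disjoint_left]
    intro k hk hk'
    simp only [Finset.mem_union, Finset.mem_filter, Finset.mem_univ, true_and] at hk hk'
    omega
  · rw [Finset.disjoint_left]
    intro k hk hk'
    simp only [Finset.mem_filter, Finset.mem_univ, true_and] at hk hk'
    omega

lemma OB_card (hm : 4 ≤ m) (hf : IsLoop m f) (hc : CCW f) : (OB f).card ≤ nR f := by
  classical
  refine Finset.card_image_le.trans (count_turn f (-1) _ ?_)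
  rintro j ⟨_, h1, h2⟩
  rcases tri hm hf hc (j : ZMod m) with ⟨a, b⟩ | ⟨a, b, c⟩ | ⟨a, b, c⟩
  · exact absurd h1 b
  · exact absurd h2 c
  · exact a

lemma QA_card (hm : 4 ≤ m) (hf : IsLoop m f) (hc : CCW f) : (QA f).card ≤ nL f := by
  classical
  refine Finset.card_image_le.trans (count_turn f 1 _ ?_)
  rintro j ⟨_, h1⟩
  rcases tri hm hf hc (j : ZMod m) with ⟨a, b⟩ | ⟨a, b, c⟩ | ⟨a, b, c⟩
  · exact a
  · exact absurd b h1
  · exact absurd b h1

lemma QB_card (hm : 4 ≤ m) (hf : IsLoop m f) (hc : CCW f) : (QB f).card ≤ nS f := by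
  classical
  refine Finset.card_image_le.trans (count_turn f 0 _ ?_)
  rintro j ⟨_, h1, h2⟩
  rcases tri hm hf hc (j : ZMod m) with ⟨a, b⟩ | ⟨a, b, c⟩ | ⟨a, b, c⟩
  · exact absurd h1 b
  · exact a
  · exact absurd c h2

lemma OAB_card (hm : 4 ≤ m) (hf : IsLoop m f) (hc : CCW f) :
    (OA f).card + (OB f).card ≤ area m f := by
  classical
  rw [area_eq hf, ← Finset.card_union_of_disjoint]
  · apply Finset.card_le_card
    intro c h
    rw [mem_CC hf]
    unfold OA OB at h
    simp only [Finset.mem_union, Finset.mem_image, Finset.mem_filter] at h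
    rcases h with ⟨j, ⟨_, _, h⟩, rfl⟩ | ⟨j, ⟨_, _, _, h⟩, rfl⟩
    · exact h
    · exact h
  · rw [Finset.disjoint_left]
    intro c h h'
    unfold OA at h
    unfold OB at h'
    simp only [Finset.mem_image, Finset.mem_filter] at h h'
    obtain ⟨j, ⟨_, hj1, hj2⟩, rfl⟩ := h
    obtain ⟨i, ⟨_, hi1, hi2, hi3⟩, hi⟩ := h'
    rcases lt_trichotomy i j with hij | hij | hij
    · apply hj1
      rw [← hi]
      exact Kn_mono f (by omega) (bj_mem hi2)
    · subst hij
      exact al_ne_ar hf (i : ZMod m) hi.symm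
    · apply hi1
      rw [hi]
      exact Kn_mono f (by omega) (aj_mem f j)

lemma ar_al_box (hf : IsLoop m f) (k : ZMod m) :
    al (f k) (f (k+1)) ∈ Bx m ∧ ar (f k) (f (k+1)) ∈ Bx m := by
  have h2 := loop_bound hf (k + 1)
  rw [abs_le, abs_le] at h2
  rw [mem_Bx, mem_Bx]
  rcases step_cases hf.2.2 k with ⟨p1, p2⟩ | ⟨p1, p2⟩ | ⟨p1, p2⟩ | ⟨p1, p2⟩ <;>
    simp only [al, ar] <;> omega

lemma T_box (hf : IsLoop m f) : TO f ⊆ Bx m ×ˢ (univ : Finset Bool) ∧
    TQ f ⊆ Bx m ×ˢ (univ : Finset Bool) := by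
  classical
  constructor
  · intro u h
    unfold TO OA OB at h
    simp only [Finset.mem_union, Finset.mem_image, Finset.mem_filter] at h
    rw [Finset.mem_product]
    rcases h with ⟨c, ⟨j, ⟨_, _, h⟩, rfl⟩, rfl⟩ | ⟨c, ⟨j, ⟨_, _, _, h⟩, rfl⟩, rfl⟩
    · exact ⟨(ar_al_box hf _).1, Finset.mem_univ _⟩
    · exact ⟨(ar_al_box hf _).2, Finset.mem_univ _⟩
  · intro u h
    unfold TQ QA QB at h
    simp only [Finset.mem_union, Finset.mem_image, Finset.mem_filter] at h
    rw [Finset.mem_product]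
    rcases h with ⟨c, ⟨j, ⟨_, _, h⟩, rfl⟩, rfl⟩ | ⟨c, ⟨j, ⟨_, _, _, h⟩, rfl⟩, rfl⟩
    · exact ⟨(ar_al_box hf _).1, Finset.mem_univ _⟩
    · exact ⟨(ar_al_box hf _).2, Finset.mem_univ _⟩

lemma prod_tag (A B : Finset (ℤ × ℤ)) (G : (ℤ × ℤ) × Bool → ℝ) (x y : ℝ)
    (hx : ∀ c, G (c, false) = x) (hy : ∀ c, G (c, true) = y) :
    ∏ u ∈ A.image (fun c => (c, false)) ∪ B.image (fun c => (c, true)), G u =
      x ^ A.card * y ^ B.card := by
  classical
  rw [Finset.prod_union, Finset.prod_image, Finset.prod_image]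
  · simp [hx, hy]
  · intro a _ b _ h
    simpa using h
  · intro a _ b _ h
    simpa using h
  · rw [Finset.disjoint_left]
    intro u h h'
    obtain ⟨c, _, rfl⟩ := Finset.mem_image.mp h
    obtain ⟨c', _, h2⟩ := Finset.mem_image.mp h'
    simp at h2

/-- the exploration inequality with two kinds of queries -/
theorem explore2 (hm : 4 ≤ m) (δ : ℤ × ℤ) (F : Finset (ZMod m → ℤ × ℤ))
    (hF : ∀ f ∈ F, IsLoop m f ∧ CCW f ∧ f (0 + 1) = δ) (p1 p2 : ℝ) (hp : 0 ≤ p1) (hq : 0 ≤ p2)
    (hp1 : p1 ≤ 1) (hq1 : p2 ≤ 1) :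
    ∑ f ∈ F, (p1 ^ (OA f).card * p2 ^ (OB f).card) *
      ((1 - p1) ^ (QA f).card * (1 - p2) ^ (QB f).card) ≤ 1 := by
  classical
  let P : (ℤ × ℤ) × Bool → ℝ := fun u => if u.2 then p2 else p1
  have hP0 : ∀ u, 0 ≤ P u := by
    intro u; simp only [P]; split_ifs <;> assumption
  have hP1 : ∀ u, P u ≤ 1 := by
    intro u; simp only [P]; split_ifs <;> assumption
  have hn : ∀ u, 0 ≤ 1 - P u := fun u => by linarith [hP1 u]
  set Λ := Bx m ×ˢ (univ : Finset Bool) with hΛ
  have h1 : ∀ f ∈ F, (p1 ^ (OA f).card * p2 ^ (OB f).card) *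
      ((1 - p1) ^ (QA f).card * (1 - p2) ^ (QB f).card) ≤
      ∑ S ∈ Λ.powerset.filter (fun S => TO f ⊆ S ∧ Disjoint (TQ f) S),
        (∏ a ∈ S, P a) * (∏ a ∈ Λ \ S, (1 - P a)) := by
    intro f hf
    obtain ⟨a, b, c⟩ := hF f hf
    refine le_trans (le_of_eq ?_) (cyl2 Λ (TO f) (TQ f) (T_box a).1 (T_box a).2 ?_ P hP0 hP1)
    · unfold TO TQ
      rw [prod_tag (OA f) (OB f) P p1 p2 (by simp [P]) (by simp [P]),
        prod_tag (QA f) (QB f) (fun u => 1 - P u) (1 - p1) (1 - p2) (by simp [P]) (by simp [P])]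
    · rw [Finset.disjoint_left]
      intro x hx hx'
      exact TQ_encl hx' (TO_encl hx)
  refine (Finset.sum_le_sum h1).trans ?_
  have h2 : ∑ f ∈ F, ∑ S ∈ Λ.powerset.filter (fun S => TO f ⊆ S ∧ Disjoint (TQ f) S),
        (∏ a ∈ S, P a) * (∏ a ∈ Λ \ S, (1 - P a)) =
      ∑ S ∈ Λ.powerset, ∑ f ∈ F.filter (fun f => TO f ⊆ S ∧ Disjoint (TQ f) S),
        (∏ a ∈ S, P a) * (∏ a ∈ Λ \ S, (1 - P a)) := by
    apply Finset.sum_comm'
    intro f S
    simp only [Finset.mem_filter]
    tauto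
  rw [h2]
  calc ∑ S ∈ Λ.powerset, ∑ f ∈ F.filter (fun f => TO f ⊆ S ∧ Disjoint (TQ f) S),
        (∏ a ∈ S, P a) * (∏ a ∈ Λ \ S, (1 - P a))
      ≤ ∑ S ∈ Λ.powerset, (∏ a ∈ S, P a) * (∏ a ∈ Λ \ S, (1 - P a)) := by
        refine Finset.sum_le_sum fun S _ => ?_
        rw [Finset.sum_const, nsmul_eq_mul]
        have hcard : (F.filter (fun f => TO f ⊆ S ∧ Disjoint (TQ f) S)).card ≤ 1 := by
          rw [Finset.card_le_one]
          intro f hf f' hf'
          rw [Finset.mem_filter] at hf hf'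
          obtain ⟨a, b, c⟩ := hF f hf.1
          obtain ⟨a', b', c'⟩ := hF f' hf'.1
          exact determ3 hm a a' b b' (c.trans c'.symm) S hf.2.1 hf.2.2 hf'.2.1 hf'.2.2
        have h5 : ((F.filter (fun f => TO f ⊆ S ∧ Disjoint (TQ f) S)).card : ℝ) ≤ 1 := by
          exact_mod_cast hcard
        have h6 : 0 ≤ (∏ a ∈ S, P a) * (∏ a ∈ Λ \ S, (1 - P a)) :=
          mul_nonneg (Finset.prod_nonneg fun a _ => hP0 a) (Finset.prod_nonneg fun a _ => hn a)
        nlinarith
    _ = 1 := by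
        rw [← Finset.prod_add]
        simp

end Pool.Agent.H111S
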