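import Pool.Agent.H111S.Cnt
import Pool.Agent.H739K.BND
import Pool.Agent.H739K.CONV

set_option autoImplicit false

/-!
# The mean area of the closed loops: asymptotic lower bound
-/

namespace Pool.Agent.H111S

open Finset Pool.Agent.H924P Filter

/-- a lower bound for the number of loops -/
lemma loops_low : ∃ K : ℝ, 0 ≤ K ∧ ∀ N : ℕ, 2 ≤ N →
    2.43 ^ (2 * N - 1) * Real.exp (-(K * (Real.log ((2 * N - 1 : ℕ) : ℝ)) ^ 9)) ≤
      ({f : ZMod (2 * N) → ℤ × ℤ | IsLoop (2 * N) f}.ncard : ℝ) := by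
  obtain ⟨hmu, K, hK, h⟩ := Pool.Agent.H739K.BND_proof Pool.Agent.H739K.CONV_proof
  refine ⟨K, hK, fun N hN => ?_⟩
  have h1 := (h (2 * N - 1) (by omega) (by omega)).1
  rw [(Pool.Agent.H739K.CONV_proof N hN).2.1]
  refine le_trans ?_ h1
  exact mul_le_mul_of_nonneg_right (pow_le_pow_left₀ (by norm_num) hmu _) (Real.exp_pos _).le

lemma growth (K a b C : ℝ) (hK : 0 ≤ K) (ha : 0 < a) (hab : a < b) (hC : 0 < C) :
    ∀ᶠ N : ℕ in atTop, C * a ^ N ≤ b ^ N *
      Real.exp (-(K * (Real.log ((2 * N - 1 : ℕ) : ℝ)) ^ 9)) := by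
  have hb : 0 < b := ha.trans hab
  set c0 := Real.log b - Real.log a with hc0
  have hc0' : 0 < c0 := by
    have := Real.log_lt_log ha hab
    rw [hc0]; linarith
  have h1 : (fun x : ℝ => Real.log x ^ 9) =o[atTop] (id : ℝ → ℝ) :=
    Real.isLittleO_pow_log_id_atTop
  have h2 := h1.def (c := c0 / (4 * (K + 1))) (by positivity)
  have h3 : Tendsto (fun N : ℕ => ((2 * N - 1 : ℕ) : ℝ)) atTop atTop := by
    apply tendsto_natCast_atTop_atTop.comp
    apply tendsto_atTop_mono (f := fun N : ℕ => N - 1)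
    · intro N
      show N - 1 ≤ 2 * N - 1
      omega
    · exact tendsto_sub_atTop_nat 1
  have h4 := h3.eventually h2
  have h5 : ∀ᶠ N : ℕ in atTop, 2 * Real.log C / c0 ≤ (N : ℝ) :=
    tendsto_natCast_atTop_atTop.eventually_ge_atTop _
  filter_upwards [h4, h5, eventually_ge_atTop 1] with N h4 h5 hN1
  simp only [id, Real.norm_eq_abs] at h4
  have hx : (((2 * N - 1 : ℕ) : ℝ)) ≤ 2 * N := by
    have : (2 * N - 1 : ℕ) ≤ 2 * N := by omega
    exact_mod_cast this
  have hx0 : (0 : ℝ) ≤ ((2 * N - 1 : ℕ) : ℝ) := Nat.cast_nonneg _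
  rw [abs_of_nonneg hx0] at h4
  have h6 : K * (Real.log ((2 * N - 1 : ℕ) : ℝ)) ^ 9 ≤ c0 / 2 * N := by
    have h7 : (Real.log ((2 * N - 1 : ℕ) : ℝ)) ^ 9 ≤ c0 / (4 * (K + 1)) * (2 * N) :=
      (le_abs_self _).trans (h4.trans (mul_le_mul_of_nonneg_left hx (by positivity)))
    have h8 : K * (c0 / (4 * (K + 1)) * (2 * N)) ≤ c0 / 2 * N := by
      have e : K * (c0 / (4 * (K + 1)) * (2 * N)) = (K / (K + 1)) * (c0 / 2 * N) := by
        field_simp
        ring
      rw [e]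
      have h9 : K / (K + 1) ≤ 1 := by
        rw [div_le_one (by linarith)]
        linarith
      have h10 : 0 ≤ c0 / 2 * (N : ℝ) := by positivity
      nlinarith
    exact (mul_le_mul_of_nonneg_left h7 hK).trans h8
  have h5' : Real.log C ≤ c0 / 2 * N := by
    rw [div_le_iff₀ hc0'] at h5
    linarith
  have hgoal : Real.log C + N * Real.log a ≤ N * Real.log b +
      (-(K * (Real.log ((2 * N - 1 : ℕ) : ℝ)) ^ 9)) := by
    have : c0 * (N : ℝ) = N * Real.log b - N * Real.log a := by rw [hc0]; ring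
    linarith
  have := Real.exp_le_exp.mpr hgoal
  rw [Real.exp_add, Real.exp_add, Real.exp_log hC, mul_comm (N : ℝ) (Real.log a),
    mul_comm (N : ℝ) (Real.log b), Real.exp_mul, Real.exp_mul, Real.exp_log ha, Real.exp_log hb,
    Real.rpow_natCast, Real.rpow_natCast] at this
  exact this

/-- **Main theorem.** -/
theorem main : ∀ᶠ N : ℕ in atTop, 1.01 * (N : ℝ) ≤
    (∑ᶠ f ∈ {f : ZMod (2 * N) → ℤ × ℤ | IsLoop (2 * N) f}, (area (2 * N) f : ℝ)) /
      ({f : ZMod (2 * N) → ℤ × ℤ | IsLoop (2 * N) f}.ncard : ℝ) := by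
  classical
  obtain ⟨K, hK, hlow⟩ := loops_low
  have hg := growth K 5.901 5.9049 (41 * 1000 * 2.43) hK (by norm_num) (by norm_num) (by norm_num)
  filter_upwards [hg, eventually_ge_atTop 2] with N hg hN
  haveI : NeZero (2 * N) := ⟨by omega⟩
  have hfin := finite_loops (2 * N)
  have hNR : (2 : ℝ) ≤ N := by exact_mod_cast hN
  have hlo := hlow N hN
  rw [Set.ncard_eq_toFinset_card _ hfin] at hlo ⊢
  have e := finsum_mem_eq_finite_toFinset_sum (fun f => (area (2 * N) f : ℝ)) hfin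
  simp only [Set.mem_setOf_eq] at e ⊢
  rw [e]
  set L := hfin.toFinset with hL
  set bad := L.filter (fun f => (area (2 * N) f : ℝ) ≤ 91 / 90 * N) with hbad
  have hb := bad_all N hN bad (fun f hf => hfin.mem_toFinset.mp (Finset.mem_filter.mp hf).1)
    (fun f hf => (Finset.mem_filter.mp hf).2)
  set E := Real.exp (-(K * (Real.log ((2 * N - 1 : ℕ) : ℝ)) ^ 9)) with hE
  have hE0 : 0 < E := Real.exp_pos _
  have hpow : (5.9049 : ℝ) ^ N = 2.43 ^ (2 * N - 1) * 2.43 := by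
    rw [← pow_succ, show 2 * N - 1 + 1 = 2 * N by omega, pow_mul]
    norm_num
  have hb2 : 1000 * (bad.card : ℝ) ≤ L.card := by
    rw [hpow] at hg
    have h1 : 1000 * (bad.card : ℝ) * 2.43 ≤ 2.43 ^ (2 * N - 1) * E * 2.43 := by
      nlinarith
    have h2 : 1000 * (bad.card : ℝ) ≤ 2.43 ^ (2 * N - 1) * E := by nlinarith
    exact h2.trans hlo
  have hLpos : (0 : ℝ) < L.card := lt_of_lt_of_le (by positivity) hlo
  rw [le_div_iff₀ hLpos]
  have hsplit : (bad.card : ℝ) + ((L.filter (fun f => ¬ (area (2 * N) f : ℝ) ≤ 91 / 90 * N)).card : ℝ)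
      = L.card := by
    exact_mod_cast Finset.card_filter_add_card_filter_not _
  have hsum : ((L.filter (fun f => ¬ (area (2 * N) f : ℝ) ≤ 91 / 90 * N)).card : ℝ) *
      (91 / 90 * N) ≤ ∑ f ∈ L, (area (2 * N) f : ℝ) := by
    rw [← nsmul_eq_mul, ← Finset.sum_const]
    refine (Finset.sum_le_sum (fun f hf => ?_)).trans
      (Finset.sum_le_sum_of_subset_of_nonneg (Finset.filter_subset _ _)
        (fun f _ _ => Nat.cast_nonneg _))
    exact (not_le.mp (Finset.mem_filter.mp hf).2).le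
  refine le_trans ?_ hsum
  have h3 : ((L.filter (fun f => ¬ (area (2 * N) f : ℝ) ≤ 91 / 90 * N)).card : ℝ) ≥
      0.999 * L.card := by linarith
  have h4 : (0 : ℝ) ≤ 91 / 90 * N := by positivity
  have h5 := mul_le_mul_of_nonneg_right h3 h4
  refine le_trans ?_ h5
  nlinarith

end Pool.Agent.H111S
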