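import Pool.Agent.H111S.CntC
import Pool.Agent.H111S.Fin
import Pool.Agent.H111S.BrB

set_option autoImplicit false

/-!
# The mean area of the closed loops: asymptotic lower bound, third version
-/

namespace Pool.Agent.H111S

open Finset Pool.Agent.H924P Filter Pool.Agent

theorem mu_ge2 : 2.516 ≤ H981.mu := by
  by_contra hcon
  push Not at hcon
  obtain ⟨c, hc, hlow⟩ := Br.SW_low
  have hmu := H981.mu_pos
  set r : ℝ := (H981.mu + 2.516) / 2 with hr
  have hr1 : H981.mu < r := by rw [hr]; linarith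
  have hr2 : r < 2.516 := by rw [hr]; linarith
  have hr0 : 0 < r := hmu.trans hr1
  have h1 := H981.eventually_le hr1
  have hq0 : 0 ≤ r / 2.516 := by positivity
  have hq1 : r / 2.516 < 1 := by rw [div_lt_one (by norm_num)]; exact hr2
  have h2 := tendsto_pow_atTop_nhds_zero_of_lt_one hq0 hq1
  have h3 := h2.eventually (gt_mem_nhds hc)
  obtain ⟨n, hn1, hn2⟩ := (h1.and h3).exists
  rw [H739K.BNDx.card_SW] at hn1
  have h4 := (hlow n).trans hn1
  rw [div_pow, div_lt_iff₀ (by positivity)] at hn2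
  linarith

/-- a lower bound for the number of loops -/
lemma loops_lowC : ∃ K : ℝ, 0 ≤ K ∧ ∀ N : ℕ, 2 ≤ N →
    2.516 ^ (2 * N - 1) * Real.exp (-(K * (Real.log ((2 * N - 1 : ℕ) : ℝ)) ^ 9)) ≤
      ({f : ZMod (2 * N) → ℤ × ℤ | IsLoop (2 * N) f}.ncard : ℝ) := by
  obtain ⟨hmu, K, hK, h⟩ := Pool.Agent.H739K.BND_proof Pool.Agent.H739K.CONV_proof
  refine ⟨K, hK, fun N hN => ?_⟩
  have h1 := (h (2 * N - 1) (by omega) (by omega)).1
  rw [(Pool.Agent.H739K.CONV_proof N hN).2.1]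
  refine le_trans ?_ h1
  exact mul_le_mul_of_nonneg_right (pow_le_pow_left₀ (by norm_num) mu_ge2 _) (Real.exp_pos _).le

/-- **Main theorem, third version.** -/
theorem mainC : ∀ᶠ N : ℕ in atTop, 1.282 * (N : ℝ) ≤
    (∑ᶠ f ∈ {f : ZMod (2 * N) → ℤ × ℤ | IsLoop (2 * N) f}, (area (2 * N) f : ℝ)) /
      ({f : ZMod (2 * N) → ℤ × ℤ | IsLoop (2 * N) f}.ncard : ℝ) := by
  classical
  obtain ⟨K, hK, hlow⟩ := loops_lowC
  have hg := growth K 6.3292 6.330256 (21 * 10000 * 2.516) hK (by norm_num) (by norm_num) (by norm_num)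
  filter_upwards [hg, eventually_ge_atTop 2] with N hg hN
  have : NeZero (2 * N) := ⟨by omega⟩
  have hfin := finite_loops (2 * N)
  have hNR : (2 : ℝ) ≤ N := by exact_mod_cast hN
  have hlo := hlow N hN
  rw [Set.ncard_eq_toFinset_card _ hfin] at hlo ⊢
  have e := finsum_mem_eq_finite_toFinset_sum (fun f => (area (2 * N) f : ℝ)) hfin
  simp only [Set.mem_ofPred_eq] at e ⊢
  rw [e]
  set L := hfin.toFinset with hL
  set bad := L.filter (fun f => (area (2 * N) f : ℝ) ≤ 68 / 53 * N) with hbad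
  have hb := bad_allC N hN bad (fun f hf => hfin.mem_toFinset.mp (Finset.mem_filter.mp hf).1)
    (fun f hf => (Finset.mem_filter.mp hf).2)
  set E := Real.exp (-(K * (Real.log ((2 * N - 1 : ℕ) : ℝ)) ^ 9)) with hE
  have hE0 : 0 < E := Real.exp_pos _
  have hpow : (6.330256 : ℝ) ^ N = 2.516 ^ (2 * N - 1) * 2.516 := by
    rw [← pow_succ, show 2 * N - 1 + 1 = 2 * N by omega, pow_mul]
    norm_num
  have hb2 : 10000 * (bad.card : ℝ) ≤ L.card := by
    rw [hpow] at hg
    have h1 : 10000 * (bad.card : ℝ) * 2.516 ≤ 2.516 ^ (2 * N - 1) * E * 2.516 := by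
      nlinarith
    have h2 : 10000 * (bad.card : ℝ) ≤ 2.516 ^ (2 * N - 1) * E := by nlinarith
    exact h2.trans hlo
  have hLpos : (0 : ℝ) < L.card := lt_of_lt_of_le (by positivity) hlo
  rw [le_div_iff₀ hLpos]
  have hsplit : (bad.card : ℝ) + ((L.filter (fun f => ¬ (area (2 * N) f : ℝ) ≤ 68 / 53 * N)).card : ℝ)
      = L.card := by
    exact_mod_cast Finset.card_filter_add_card_filter_not _
  have hsum : ((L.filter (fun f => ¬ (area (2 * N) f : ℝ) ≤ 68 / 53 * N)).card : ℝ) *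
      (68 / 53 * N) ≤ ∑ f ∈ L, (area (2 * N) f : ℝ) := by
    rw [← nsmul_eq_mul, ← Finset.sum_const]
    refine (Finset.sum_le_sum (fun f hf => ?_)).trans
      (Finset.sum_le_sum_of_subset_of_nonneg (Finset.filter_subset _ _)
        (fun f _ _ => Nat.cast_nonneg _))
    exact (not_le.mp (Finset.mem_filter.mp hf).2).le
  refine le_trans ?_ hsum
  have h3 : ((L.filter (fun f => ¬ (area (2 * N) f : ℝ) ≤ 68 / 53 * N)).card : ℝ) ≥
      0.9999 * L.card := by linarith
  have h4 : (0 : ℝ) ≤ 68 / 53 * N := by positivity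
  have h5 := mul_le_mul_of_nonneg_right h3 h4
  refine le_trans ?_ h5
  nlinarith

end Pool.Agent.H111S
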