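import Pool.Agent.H924P.Loop

set_option autoImplicit false

/-!
# Closed loops on the square lattice: the two sides of an edge

`Ed f p q`: the loop has an edge between `p` and `q`.  Two cells sharing a lattice edge are both
enclosed or both not enclosed, except when the edge belongs to the loop.
-/

namespace Pool.Agent.H111S

open Finset Pool.Agent.H924P

/-- there is an edge of the loop between `p` and `q` -/
def Ed {m : ℕ} (f : ZMod m → ℤ × ℤ) (p q : ℤ × ℤ) : Prop :=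
  ∃ k, (f k = p ∧ f (k + 1) = q) ∨ (f k = q ∧ f (k + 1) = p)

variable {m : ℕ} [NeZero m] {f : ZMod m → ℤ × ℤ}

open Classical in
/-- parity of the number of edges above a cell -/
noncomputable def chi (f : ZMod m → ℤ × ℤ) (c : ℤ × ℤ) : ZMod 2 :=
  ∑ k, if Above m f c.1 c.2 k then 1 else 0

lemma encl_iff_chi (c : ℤ × ℤ) : Encl m f c ↔ chi f c = 1 := by
  classical
  unfold Encl chi
  rw [Nat.card_eq_fintype_card, Fintype.card_subtype, ← ZMod.natCast_eq_one_iff_odd,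
    Finset.card_filter, Nat.cast_sum]
  simp

lemma two_ne (hm : 4 ≤ m) : (1 : ZMod m) + 1 ≠ 0 := by
  intro h
  have h1 : ((2 : ℕ) : ZMod m) = 0 := by push_cast; rw [← h]; norm_num
  rw [ZMod.natCast_eq_zero_iff] at h1
  have := Nat.le_of_dvd (by norm_num) h1
  omega

open Classical in
/-- an indicator sum with at most one term -/
lemma sum_ed (hm : 4 ≤ m) (hinj : Function.Injective f) (p q : ℤ × ℤ) :
    (∑ k, if (f k = p ∧ f (k + 1) = q) ∨ (f k = q ∧ f (k + 1) = p) then (1 : ZMod 2) else 0) =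
      if Ed f p q then 1 else 0 := by
  by_cases h : Ed f p q
  · rw [if_pos h]
    obtain ⟨k, hk⟩ := h
    rw [Finset.sum_eq_single k, if_pos hk]
    · intro j _ hj
      rw [if_neg]
      intro hj'
      rcases hk with ⟨a, b⟩ | ⟨a, b⟩ <;> rcases hj' with ⟨c, d⟩ | ⟨c, d⟩
      · exact hj (hinj (c.trans a.symm))
      · have h1 : j = k + 1 := hinj (c.trans b.symm)
        have h2 : j + 1 = k := hinj (d.trans a.symm)
        rw [h1, add_assoc] at h2
        exact two_ne hm (by simpa using h2)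
      · have h1 : j = k + 1 := hinj (c.trans b.symm)
        have h2 : j + 1 = k := hinj (d.trans a.symm)
        rw [h1, add_assoc] at h2
        exact two_ne hm (by simpa using h2)
      · exact hj (hinj (c.trans a.symm))
    · simp
  · rw [if_neg h]
    apply Finset.sum_eq_zero
    intro k _
    rw [if_neg]
    exact fun hk => h ⟨k, hk⟩

open Classical in
lemma chi_v (hm : 4 ≤ m) (hinj : Function.Injective f)
    (hs : ∀ i : ZMod m, |(f (i+1)).1 - (f i).1| + |(f (i+1)).2 - (f i).2| = 1) (a b : ℤ) :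
    chi f (a, b - 1) + chi f (a, b) = if Ed f (a, b) (a + 1, b) then 1 else 0 := by
  rw [← sum_ed hm hinj]
  unfold chi
  rw [← Finset.sum_add_distrib]
  refine Finset.sum_congr rfl fun k _ => ?_
  have h1 := hs k
  have h3 : |(f (k+1)).1 - (f k).1| = 1 → (f (k+1)).2 = (f k).2 := by
    intro h
    have : |(f (k+1)).2 - (f k).2| = 0 := by omega
    rw [abs_eq_zero] at this
    omega
  have h4 : (f k).1 = a ∧ (f (k + 1)).1 = a + 1 → (f (k+1)).2 = (f k).2 := by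
    rintro ⟨h5, h6⟩
    apply h3
    rw [h5, h6]
    simp
  have h5 : (f k).1 = a + 1 ∧ (f (k + 1)).1 = a → (f (k+1)).2 = (f k).2 := by
    rintro ⟨h5, h6⟩
    apply h3
    rw [h5, h6]
    simp
  have e1 : Above m f (a, b - 1).1 (a, b - 1).2 k ↔
      (((f k).1 = a ∧ (f (k + 1)).1 = a + 1) ∨ ((f k).1 = a + 1 ∧ (f (k + 1)).1 = a)) ∧
        b ≤ (f k).2 := by
    unfold Above
    simp only
    constructor
    · rintro ⟨x, y⟩; exact ⟨x, by omega⟩
    · rintro ⟨x, y⟩; exact ⟨x, by omega⟩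
  have e2 : Above m f (a, b).1 (a, b).2 k ↔
      (((f k).1 = a ∧ (f (k + 1)).1 = a + 1) ∨ ((f k).1 = a + 1 ∧ (f (k + 1)).1 = a)) ∧
        b < (f k).2 := Iff.rfl
  have e3 : ((f k = (a, b) ∧ f (k + 1) = (a + 1, b)) ∨ (f k = (a + 1, b) ∧ f (k + 1) = (a, b))) ↔
      (((f k).1 = a ∧ (f (k + 1)).1 = a + 1) ∨ ((f k).1 = a + 1 ∧ (f (k + 1)).1 = a)) ∧
        b = (f k).2 := by
    simp only [Prod.ext_iff]
    constructor
    · rintro (⟨⟨p, q⟩, r, s⟩ | ⟨⟨p, q⟩, r, s⟩)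
      · exact ⟨Or.inl ⟨p, r⟩, q.symm⟩
      · exact ⟨Or.inr ⟨p, r⟩, q.symm⟩
    · rintro ⟨h | h, q⟩
      · have := h4 h
        exact Or.inl ⟨⟨h.1, q.symm⟩, h.2, by omega⟩
      · have := h5 h
        exact Or.inr ⟨⟨h.1, q.symm⟩, h.2, by omega⟩
  rw [if_congr e1 rfl rfl, if_congr e2 rfl rfl, if_congr e3 rfl rfl]
  by_cases hP : (((f k).1 = a ∧ (f (k + 1)).1 = a + 1) ∨ ((f k).1 = a + 1 ∧ (f (k + 1)).1 = a))
  · rcases lt_trichotomy b (f k).2 with h | h | h
    · rw [if_pos ⟨hP, h.le⟩, if_pos ⟨hP, h⟩, if_neg (fun h' => by have := h'.2; omega)]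
      decide
    · rw [if_pos ⟨hP, h.le⟩, if_neg (fun h' => by have := h'.2; omega), if_pos ⟨hP, h⟩]
      decide
    · rw [if_neg (fun h' => by have := h'.2; omega), if_neg (fun h' => by have := h'.2; omega),
        if_neg (fun h' => by have := h'.2; omega)]
      decide
  · rw [if_neg (fun h => hP h.1), if_neg (fun h => hP h.1), if_neg (fun h => hP h.1)]
    decide

lemma five (P Q R A B : Prop) [Decidable P] [Decidable Q] [Decidable R] [Decidable A] [Decidable B]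
    (h : (P ∧ ¬ Q ∧ ¬ R ∧ (A ↔ ¬ B)) ∨ (¬ P ∧ Q ∧ ¬ R ∧ (A ↔ ¬ B)) ∨ (¬ P ∧ ¬ Q ∧ R ∧ (A ↔ ¬ B)) ∨
      (¬ P ∧ ¬ Q ∧ ¬ R ∧ (A ↔ B))) :
    (if P then (1 : ZMod 2) else 0) + (if Q then 1 else 0) + (if R then 1 else 0) =
      (if A then 1 else 0) + (if B then 1 else 0) := by
  rcases h with ⟨p, q, r, ab⟩ | ⟨p, q, r, ab⟩ | ⟨p, q, r, ab⟩ | ⟨p, q, r, ab⟩ <;>
    by_cases hB : B
  · rw [if_pos p, if_neg q, if_neg r, if_neg (fun a => ab.mp a hB), if_pos hB]; decide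
  · rw [if_pos p, if_neg q, if_neg r, if_pos (ab.mpr hB), if_neg hB]; decide
  · rw [if_neg p, if_pos q, if_neg r, if_neg (fun a => ab.mp a hB), if_pos hB]; decide
  · rw [if_neg p, if_pos q, if_neg r, if_pos (ab.mpr hB), if_neg hB]; decide
  · rw [if_neg p, if_neg q, if_pos r, if_neg (fun a => ab.mp a hB), if_pos hB]; decide
  · rw [if_neg p, if_neg q, if_pos r, if_pos (ab.mpr hB), if_neg hB]; decide
  · rw [if_neg p, if_neg q, if_neg r, if_pos (ab.mpr hB), if_pos hB]; decide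
  · rw [if_neg p, if_neg q, if_neg r, if_neg (fun a => hB (ab.mp a)), if_neg hB]; decide

open Classical in
lemma chi_h (hm : 4 ≤ m) (hinj : Function.Injective f)
    (hs : ∀ i : ZMod m, |(f (i+1)).1 - (f i).1| + |(f (i+1)).2 - (f i).2| = 1) (a b : ℤ) :
    chi f (a - 1, b) + chi f (a, b) = if Ed f (a, b) (a, b + 1) then 1 else 0 := by
  rw [← sum_ed hm hinj]
  let ψ : ZMod m → ZMod 2 := fun k => if (f k).1 = a ∧ b < (f k).2 then 1 else 0
  have h0 : ∑ k, (ψ k + ψ (k + 1)) = 0 := by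
    rw [Finset.sum_add_distrib]
    have h2 : ∑ k, ψ (k + 1) = ∑ k, ψ k := Equiv.sum_comp (Equiv.addRight (1 : ZMod m)) ψ
    rw [h2]
    exact CharTwo.add_self_eq_zero _
  suffices h : chi f (a - 1, b) + chi f (a, b) + (∑ k, if (f k = (a, b) ∧ f (k + 1) = (a, b + 1)) ∨
      (f k = (a, b + 1) ∧ f (k + 1) = (a, b)) then (1 : ZMod 2) else 0) = 0 by
    rw [← CharTwo.sub_eq_add] at h
    exact sub_eq_zero.mp h
  refine Eq.trans ?_ h0
  unfold chi
  rw [← Finset.sum_add_distrib, ← Finset.sum_add_distrib]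
  refine Finset.sum_congr rfl fun k _ => ?_
  have h1 := hs k
  have hcase : ((f (k+1)).1 = (f k).1 + 1 ∧ (f (k+1)).2 = (f k).2) ∨
      ((f (k+1)).1 = (f k).1 - 1 ∧ (f (k+1)).2 = (f k).2) ∨
      ((f (k+1)).1 = (f k).1 ∧ (f (k+1)).2 = (f k).2 + 1) ∨
      ((f (k+1)).1 = (f k).1 ∧ (f (k+1)).2 = (f k).2 - 1) := by
    rcases abs_cases ((f (k+1)).1 - (f k).1) with ⟨h2, h3⟩ | ⟨h2, h3⟩ <;>
      rcases abs_cases ((f (k+1)).2 - (f k).2) with ⟨h4, h5⟩ | ⟨h4, h5⟩ <;> omega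
  have key := five (Above m f (a - 1) b k) (Above m f a b k)
    ((f k = (a, b) ∧ f (k + 1) = (a, b + 1)) ∨ (f k = (a, b + 1) ∧ f (k + 1) = (a, b)))
    ((f k).1 = a ∧ b < (f k).2) ((f (k+1)).1 = a ∧ b < (f (k+1)).2) (by
      simp only [Above, Prod.ext_iff]
      rcases hcase with ⟨e1, e2⟩ | ⟨e1, e2⟩ | ⟨e1, e2⟩ | ⟨e1, e2⟩ <;> rw [e1, e2] <;> omega)
  simp only [ψ]
  convert key

end Pool.Agent.H111S
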