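import Pool.Agent.H111S.Par

set_option autoImplicit false
set_option linter.unusedVariables false
set_option linter.unusedSimpArgs false
set_option maxHeartbeats 4000000
set_option linter.unusedSectionVars false

/-!
# Closed loops on the square lattice: left and right cells, turns, curvature
-/

namespace Pool.Agent.H111S

open Finset Pool.Agent.H924P

/-- the cell on the left of the edge from `p` to `q` -/
def lc (p q : ℤ × ℤ) : ℤ × ℤ :=
  (p.1 + ((q.1 - p.1) - (q.2 - p.2) - 1) / 2, p.2 + ((q.1 - p.1) + (q.2 - p.2) - 1) / 2)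

/-- the cell on the right of the edge from `p` to `q` -/
def rc (p q : ℤ × ℤ) : ℤ × ℤ :=
  (p.1 + ((q.1 - p.1) + (q.2 - p.2) - 1) / 2, p.2 + ((q.2 - p.2) - (q.1 - p.1) - 1) / 2)

/-- the cell ahead on the left, after the edge from `p` to `v` -/
def al (p v : ℤ × ℤ) : ℤ × ℤ :=
  (v.1 + ((v.1 - p.1) - (v.2 - p.2) - 1) / 2, v.2 + ((v.1 - p.1) + (v.2 - p.2) - 1) / 2)

/-- the cell ahead on the right, after the edge from `p` to `v` -/
def ar (p v : ℤ × ℤ) : ℤ × ℤ :=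
  (v.1 + ((v.1 - p.1) + (v.2 - p.2) - 1) / 2, v.2 + ((v.2 - p.2) - (v.1 - p.1) - 1) / 2)

/-- the turn: `1` left, `0` straight, `-1` right -/
def cr (p v q : ℤ × ℤ) : ℤ := (v.1 - p.1) * (q.2 - v.2) - (v.2 - p.2) * (q.1 - v.1)

open Classical in
/-- integer indicator -/
noncomputable def gi (P : Prop) : ℤ := if P then 1 else 0

/-- four times the local Euler characteristic -/
noncomputable def Kp (e1 e2 e3 e4 : Prop) : ℤ :=
  gi e1 + gi e2 + gi e3 + gi e4 - 2 * (gi e4 * gi e3 + gi e2 * gi e1 + gi e4 * gi e2 + gi e3 * gi e1)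
    + 4 * (gi e1 * gi e2 * gi e3 * gi e4)

/-- the curvature at a vertex -/
noncomputable def K {m : ℕ} (f : ZMod m → ℤ × ℤ) (v : ℤ × ℤ) : ℤ :=
  Kp (Encl m f v) (Encl m f (v.1 - 1, v.2)) (Encl m f (v.1, v.2 - 1)) (Encl m f (v.1 - 1, v.2 - 1))

variable {m : ℕ} [NeZero m] {f : ZMod m → ℤ × ℤ}

lemma zmod2_aux : ∀ u v : ZMod 2, (u + v = 1 → ¬ (u = 1 ↔ v = 1)) ∧ (u + v = 0 → (u = 1 ↔ v = 1)) := by
  decide

lemma encl_v (hm : 4 ≤ m) (hinj : Function.Injective f)
    (hs : ∀ i : ZMod m, |(f (i+1)).1 - (f i).1| + |(f (i+1)).2 - (f i).2| = 1) (a b : ℤ) :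
    (Encl m f (a, b - 1) ↔ Encl m f (a, b)) ↔ ¬ Ed f (a, b) (a + 1, b) := by
  classical
  rw [encl_iff_chi, encl_iff_chi]
  have h := chi_v hm hinj hs a b
  by_cases hE : Ed f (a, b) (a + 1, b)
  · rw [if_pos hE] at h
    exact ⟨fun h' => absurd h' ((zmod2_aux _ _).1 h), fun h' => absurd hE h'⟩
  · rw [if_neg hE] at h
    exact ⟨fun _ => hE, fun _ => (zmod2_aux _ _).2 h⟩

lemma encl_h (hm : 4 ≤ m) (hinj : Function.Injective f)
    (hs : ∀ i : ZMod m, |(f (i+1)).1 - (f i).1| + |(f (i+1)).2 - (f i).2| = 1) (a b : ℤ) :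
    (Encl m f (a - 1, b) ↔ Encl m f (a, b)) ↔ ¬ Ed f (a, b) (a, b + 1) := by
  classical
  rw [encl_iff_chi, encl_iff_chi]
  have h := chi_h hm hinj hs a b
  by_cases hE : Ed f (a, b) (a, b + 1)
  · rw [if_pos hE] at h
    exact ⟨fun h' => absurd h' ((zmod2_aux _ _).1 h), fun h' => absurd hE h'⟩
  · rw [if_neg hE] at h
    exact ⟨fun _ => hE, fun _ => (zmod2_aux _ _).2 h⟩

lemma ed_symm (p q : ℤ × ℤ) : Ed f p q ↔ Ed f q p := by
  unfold Ed
  constructor
  · rintro ⟨k, h | h⟩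
    · exact ⟨k, Or.inr h⟩
    · exact ⟨k, Or.inl h⟩
  · rintro ⟨k, h | h⟩
    · exact ⟨k, Or.inr h⟩
    · exact ⟨k, Or.inl h⟩

lemma ed_vertex (hinj : Function.Injective f) (k : ZMod m) (q : ℤ × ℤ) :
    Ed f (f (k + 1)) q ↔ f k = q ∨ f (k + 1 + 1) = q := by
  constructor
  · rintro ⟨j, ⟨h1, h2⟩ | ⟨h1, h2⟩⟩
    · have := hinj h1
      subst this
      exact Or.inr h2
    · have : j = k := by
        have := hinj h2
        exact add_right_cancel this
      subst this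
      exact Or.inl h1
  · rintro (h | h)
    · exact ⟨k, Or.inr ⟨h, rfl⟩⟩
    · exact ⟨k + 1, Or.inl ⟨rfl, h⟩⟩

lemma step_cases (hs : ∀ i : ZMod m, |(f (i+1)).1 - (f i).1| + |(f (i+1)).2 - (f i).2| = 1)
    (k : ZMod m) :
    ((f (k+1)).1 = (f k).1 + 1 ∧ (f (k+1)).2 = (f k).2) ∨
      ((f (k+1)).1 = (f k).1 - 1 ∧ (f (k+1)).2 = (f k).2) ∨
      ((f (k+1)).1 = (f k).1 ∧ (f (k+1)).2 = (f k).2 + 1) ∨
      ((f (k+1)).1 = (f k).1 ∧ (f (k+1)).2 = (f k).2 - 1) := by
  have h1 := hs k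
  rcases abs_cases ((f (k+1)).1 - (f k).1) with ⟨h2, h3⟩ | ⟨h2, h3⟩ <;>
    rcases abs_cases ((f (k+1)).2 - (f k).2) with ⟨h4, h5⟩ | ⟨h4, h5⟩ <;> omega

lemma local4 (hm : 4 ≤ m) (hinj : Function.Injective f)
    (hs : ∀ i : ZMod m, |(f (i+1)).1 - (f i).1| + |(f (i+1)).2 - (f i).2| = 1) (k : ZMod m)
    (x y : ℤ) (hv : f (k + 1) = (x, y)) :
    ((Encl m f (x, y - 1) ↔ Encl m f (x, y)) ↔ ¬ (((f k).1 = x + 1 ∧ (f k).2 = y) ∨
      ((f (k+1+1)).1 = x + 1 ∧ (f (k+1+1)).2 = y))) ∧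
    ((Encl m f (x - 1, y - 1) ↔ Encl m f (x - 1, y)) ↔ ¬ (((f k).1 = x - 1 ∧ (f k).2 = y) ∨
      ((f (k+1+1)).1 = x - 1 ∧ (f (k+1+1)).2 = y))) ∧
    ((Encl m f (x - 1, y) ↔ Encl m f (x, y)) ↔ ¬ (((f k).1 = x ∧ (f k).2 = y + 1) ∨
      ((f (k+1+1)).1 = x ∧ (f (k+1+1)).2 = y + 1))) ∧
    ((Encl m f (x - 1, y - 1) ↔ Encl m f (x, y - 1)) ↔ ¬ (((f k).1 = x ∧ (f k).2 = y - 1) ∨
      ((f (k+1+1)).1 = x ∧ (f (k+1+1)).2 = y - 1))) := by
  have h1 := encl_v hm hinj hs x y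
  have h2 := encl_v hm hinj hs (x - 1) y
  have h3 := encl_h hm hinj hs x y
  have h4 := encl_h hm hinj hs x (y - 1)
  rw [← hv, ed_vertex hinj] at h1 h3
  rw [sub_add_cancel, ed_symm, ← hv, ed_vertex hinj] at h2 h4
  simp only [Prod.ext_iff, hv] at h1 h2 h3 h4
  exact ⟨h1, h2, h3, h4⟩

lemma tL (a b c d : Prop) (h1 : ¬ (a ↔ b)) (h2 : b ↔ c) (h3 : c ↔ d) :
    (a ↔ ¬ d) ∧ (a → ¬ b ∧ ¬ c ∧ ¬ d) := by tauto

lemma tS (a b c d : Prop) (h1 : a ↔ b) (h2 : ¬ (b ↔ c)) (h3 : c ↔ d) :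
    (b ↔ a) ∧ (a ↔ ¬ d) ∧ (a → b ∧ ¬ c ∧ ¬ d) := by tauto

lemma tR (a b c d : Prop) (h1 : a ↔ b) (h2 : b ↔ c) (h3 : ¬ (c ↔ d)) :
    (c ↔ a) ∧ (a ↔ ¬ d) ∧ (b ↔ a) ∧ (a → b ∧ c ∧ ¬ d) := by tauto

theorem turn_facts (hm : 4 ≤ m) (hinj : Function.Injective f)
    (hs : ∀ i : ZMod m, |(f (i+1)).1 - (f i).1| + |(f (i+1)).2 - (f i).2| = 1) (k : ZMod m) :
    (Encl m f (lc (f (k+1)) (f (k+1+1))) ↔ Encl m f (lc (f k) (f (k+1)))) ∧
    (Encl m f (lc (f k) (f (k+1))) ↔ ¬ Encl m f (rc (f k) (f (k+1)))) ∧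
    (cr (f k) (f (k+1)) (f (k+1+1)) = -1 →
      (Encl m f (al (f k) (f (k+1))) ↔ Encl m f (lc (f k) (f (k+1))))) ∧
    (Encl m f (lc (f k) (f (k+1))) → K f (f (k+1)) = cr (f k) (f (k+1)) (f (k+1+1))) ∧
    ((cr (f k) (f (k+1)) (f (k+1+1)) = 1 ∧ rc (f (k+1)) (f (k+1+1)) = al (f k) (f (k+1)) ∧
        lc (f (k+1)) (f (k+1+1)) = lc (f k) (f (k+1))) ∨
      (cr (f k) (f (k+1)) (f (k+1+1)) = 0 ∧ lc (f (k+1)) (f (k+1+1)) = al (f k) (f (k+1)) ∧
        rc (f (k+1)) (f (k+1+1)) = ar (f k) (f (k+1))) ∨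
      (cr (f k) (f (k+1)) (f (k+1+1)) = -1 ∧ lc (f (k+1)) (f (k+1+1)) = ar (f k) (f (k+1)) ∧
        rc (f (k+1)) (f (k+1+1)) = rc (f k) (f (k+1)))) := by
  have hk2 : k + 1 + 1 ≠ k := by
    intro h
    rw [add_assoc] at h
    exact two_ne hm (by simpa using h)
  obtain ⟨x, hx⟩ : ∃ x, x = (f (k+1)).1 := ⟨_, rfl⟩
  obtain ⟨y, hy⟩ : ∃ y, y = (f (k+1)).2 := ⟨_, rfl⟩
  have hv : f (k+1) = (x, y) := Prod.ext hx.symm hy.symm
  obtain ⟨A1, A2, A3, A4⟩ := local4 hm hinj hs k x y hv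
  rcases step_cases hs k with ⟨p1, p2⟩ | ⟨p1, p2⟩ | ⟨p1, p2⟩ | ⟨p1, p2⟩ <;>
    rcases step_cases hs (k + 1) with ⟨q1, q2⟩ | ⟨q1, q2⟩ | ⟨q1, q2⟩ | ⟨q1, q2⟩
  · have r1 : (f k).1 = x - 1 := by omega
    have r2 : (f k).2 = y := by omega
    have s1 : (f (k+1+1)).1 = x + 1 := by omega
    have s2 : (f (k+1+1)).2 = y := by omega
    rw [r1, r2, s1, s2] at A1 A2 A3 A4
    have B1 : ¬ (Encl m f (x, y - 1) ↔ Encl m f (x, y)) := fun h => (A1.mp h) (by omega)
    have B2 : ¬ (Encl m f (x - 1, y - 1) ↔ Encl m f (x - 1, y)) := fun h => (A2.mp h) (by omega)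
    have B3 : (Encl m f (x - 1, y) ↔ Encl m f (x, y)) := A3.mpr (by omega)
    have B4 : (Encl m f (x - 1, y - 1) ↔ Encl m f (x, y - 1)) := A4.mpr (by omega)
    clear A1 A2 A3 A4
    have c1 : lc (f k) (f (k+1)) = (x - 1, y) := Prod.ext (by simp only [lc, rc, al, ar]; omega) (by simp only [lc, rc, al, ar]; omega)
    have c2 : rc (f k) (f (k+1)) = (x - 1, y - 1) := Prod.ext (by simp only [lc, rc, al, ar]; omega) (by simp only [lc, rc, al, ar]; omega)
    have c3 : al (f k) (f (k+1)) = (x, y) := Prod.ext (by simp only [lc, rc, al, ar]; omega) (by simp only [lc, rc, al, ar]; omega)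
    have c4 : ar (f k) (f (k+1)) = (x, y - 1) := Prod.ext (by simp only [lc, rc, al, ar]; omega) (by simp only [lc, rc, al, ar]; omega)
    have c5 : lc (f (k+1)) (f (k+1+1)) = (x, y) := Prod.ext (by simp only [lc, rc, al, ar]; omega) (by simp only [lc, rc, al, ar]; omega)
    have c6 : rc (f (k+1)) (f (k+1+1)) = (x, y - 1) := Prod.ext (by simp only [lc, rc, al, ar]; omega) (by simp only [lc, rc, al, ar]; omega)
    have ct : cr (f k) (f (k+1)) (f (k+1+1)) = 0 := by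
      simp only [cr, r1, r2, s1, s2, ← hx, ← hy]; ring
    rw [c1, c2, c3, c4, c5, c6, ct]
    obtain ⟨w1, w2, w4⟩ := tS (Encl m f (x - 1, y)) (Encl m f (x, y)) (Encl m f (x, y - 1)) (Encl m f (x - 1, y - 1)) B3 (fun h => B1 h.symm) B4.symm
    refine ⟨w1, w2, fun h => by norm_num at h, fun hL => ?_, by simp⟩
    obtain ⟨t1, t2, t3⟩ := w4 hL
    rw [hv]; simp [K, Kp, gi, hL, t1, t2, t3]
  · exact absurd (hinj (Prod.ext (by omega) (by omega) : f (k + 1 + 1) = f k)) hk2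
  · have r1 : (f k).1 = x - 1 := by omega
    have r2 : (f k).2 = y := by omega
    have s1 : (f (k+1+1)).1 = x := by omega
    have s2 : (f (k+1+1)).2 = y + 1 := by omega
    rw [r1, r2, s1, s2] at A1 A2 A3 A4
    have B1 : (Encl m f (x, y - 1) ↔ Encl m f (x, y)) := A1.mpr (by omega)
    have B2 : ¬ (Encl m f (x - 1, y - 1) ↔ Encl m f (x - 1, y)) := fun h => (A2.mp h) (by omega)
    have B3 : ¬ (Encl m f (x - 1, y) ↔ Encl m f (x, y)) := fun h => (A3.mp h) (by omega)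
    have B4 : (Encl m f (x - 1, y - 1) ↔ Encl m f (x, y - 1)) := A4.mpr (by omega)
    clear A1 A2 A3 A4
    have c1 : lc (f k) (f (k+1)) = (x - 1, y) := Prod.ext (by simp only [lc, rc, al, ar]; omega) (by simp only [lc, rc, al, ar]; omega)
    have c2 : rc (f k) (f (k+1)) = (x - 1, y - 1) := Prod.ext (by simp only [lc, rc, al, ar]; omega) (by simp only [lc, rc, al, ar]; omega)
    have c3 : al (f k) (f (k+1)) = (x, y) := Prod.ext (by simp only [lc, rc, al, ar]; omega) (by simp only [lc, rc, al, ar]; omega)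
    have c4 : ar (f k) (f (k+1)) = (x, y - 1) := Prod.ext (by simp only [lc, rc, al, ar]; omega) (by simp only [lc, rc, al, ar]; omega)
    have c5 : lc (f (k+1)) (f (k+1+1)) = (x - 1, y) := Prod.ext (by simp only [lc, rc, al, ar]; omega) (by simp only [lc, rc, al, ar]; omega)
    have c6 : rc (f (k+1)) (f (k+1+1)) = (x, y) := Prod.ext (by simp only [lc, rc, al, ar]; omega) (by simp only [lc, rc, al, ar]; omega)
    have ct : cr (f k) (f (k+1)) (f (k+1+1)) = 1 := by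
      simp only [cr, r1, r2, s1, s2, ← hx, ← hy]; ring
    rw [c1, c2, c3, c4, c5, c6, ct]
    obtain ⟨w2, w4⟩ := tL (Encl m f (x - 1, y)) (Encl m f (x, y)) (Encl m f (x, y - 1)) (Encl m f (x - 1, y - 1)) B3 B1.symm B4.symm
    refine ⟨Iff.rfl, w2, fun h => by norm_num at h, fun hL => ?_, by simp⟩
    obtain ⟨t1, t2, t3⟩ := w4 hL
    rw [hv]; simp [K, Kp, gi, hL, t1, t2, t3]
  · have r1 : (f k).1 = x - 1 := by omega
    have r2 : (f k).2 = y := by omega
    have s1 : (f (k+1+1)).1 = x := by omega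
    have s2 : (f (k+1+1)).2 = y - 1 := by omega
    rw [r1, r2, s1, s2] at A1 A2 A3 A4
    have B1 : (Encl m f (x, y - 1) ↔ Encl m f (x, y)) := A1.mpr (by omega)
    have B2 : ¬ (Encl m f (x - 1, y - 1) ↔ Encl m f (x - 1, y)) := fun h => (A2.mp h) (by omega)
    have B3 : (Encl m f (x - 1, y) ↔ Encl m f (x, y)) := A3.mpr (by omega)
    have B4 : ¬ (Encl m f (x - 1, y - 1) ↔ Encl m f (x, y - 1)) := fun h => (A4.mp h) (by omega)
    clear A1 A2 A3 A4
    have c1 : lc (f k) (f (k+1)) = (x - 1, y) := Prod.ext (by simp only [lc, rc, al, ar]; omega) (by simp only [lc, rc, al, ar]; omega)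
    have c2 : rc (f k) (f (k+1)) = (x - 1, y - 1) := Prod.ext (by simp only [lc, rc, al, ar]; omega) (by simp only [lc, rc, al, ar]; omega)
    have c3 : al (f k) (f (k+1)) = (x, y) := Prod.ext (by simp only [lc, rc, al, ar]; omega) (by simp only [lc, rc, al, ar]; omega)
    have c4 : ar (f k) (f (k+1)) = (x, y - 1) := Prod.ext (by simp only [lc, rc, al, ar]; omega) (by simp only [lc, rc, al, ar]; omega)
    have c5 : lc (f (k+1)) (f (k+1+1)) = (x, y - 1) := Prod.ext (by simp only [lc, rc, al, ar]; omega) (by simp only [lc, rc, al, ar]; omega)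
    have c6 : rc (f (k+1)) (f (k+1+1)) = (x - 1, y - 1) := Prod.ext (by simp only [lc, rc, al, ar]; omega) (by simp only [lc, rc, al, ar]; omega)
    have ct : cr (f k) (f (k+1)) (f (k+1+1)) = -1 := by
      simp only [cr, r1, r2, s1, s2, ← hx, ← hy]; ring
    rw [c1, c2, c3, c4, c5, c6, ct]
    obtain ⟨w1, w2, w3, w4⟩ := tR (Encl m f (x - 1, y)) (Encl m f (x, y)) (Encl m f (x, y - 1)) (Encl m f (x - 1, y - 1)) B3 B1.symm (fun h => B4 h.symm)
    refine ⟨w1, w2, fun _ => w3, fun hL => ?_, by simp⟩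
    obtain ⟨t1, t2, t3⟩ := w4 hL
    rw [hv]; simp [K, Kp, gi, hL, t1, t2, t3]
  · exact absurd (hinj (Prod.ext (by omega) (by omega) : f (k + 1 + 1) = f k)) hk2
  · have r1 : (f k).1 = x + 1 := by omega
    have r2 : (f k).2 = y := by omega
    have s1 : (f (k+1+1)).1 = x - 1 := by omega
    have s2 : (f (k+1+1)).2 = y := by omega
    rw [r1, r2, s1, s2] at A1 A2 A3 A4
    have B1 : ¬ (Encl m f (x, y - 1) ↔ Encl m f (x, y)) := fun h => (A1.mp h) (by omega)
    have B2 : ¬ (Encl m f (x - 1, y - 1) ↔ Encl m f (x - 1, y)) := fun h => (A2.mp h) (by omega)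
    have B3 : (Encl m f (x - 1, y) ↔ Encl m f (x, y)) := A3.mpr (by omega)
    have B4 : (Encl m f (x - 1, y - 1) ↔ Encl m f (x, y - 1)) := A4.mpr (by omega)
    clear A1 A2 A3 A4
    have c1 : lc (f k) (f (k+1)) = (x, y - 1) := Prod.ext (by simp only [lc, rc, al, ar]; omega) (by simp only [lc, rc, al, ar]; omega)
    have c2 : rc (f k) (f (k+1)) = (x, y) := Prod.ext (by simp only [lc, rc, al, ar]; omega) (by simp only [lc, rc, al, ar]; omega)
    have c3 : al (f k) (f (k+1)) = (x - 1, y - 1) := Prod.ext (by simp only [lc, rc, al, ar]; omega) (by simp only [lc, rc, al, ar]; omega)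
    have c4 : ar (f k) (f (k+1)) = (x - 1, y) := Prod.ext (by simp only [lc, rc, al, ar]; omega) (by simp only [lc, rc, al, ar]; omega)
    have c5 : lc (f (k+1)) (f (k+1+1)) = (x - 1, y - 1) := Prod.ext (by simp only [lc, rc, al, ar]; omega) (by simp only [lc, rc, al, ar]; omega)
    have c6 : rc (f (k+1)) (f (k+1+1)) = (x - 1, y) := Prod.ext (by simp only [lc, rc, al, ar]; omega) (by simp only [lc, rc, al, ar]; omega)
    have ct : cr (f k) (f (k+1)) (f (k+1+1)) = 0 := by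
      simp only [cr, r1, r2, s1, s2, ← hx, ← hy]; ring
    rw [c1, c2, c3, c4, c5, c6, ct]
    obtain ⟨w1, w2, w4⟩ := tS (Encl m f (x, y - 1)) (Encl m f (x - 1, y - 1)) (Encl m f (x - 1, y)) (Encl m f (x, y)) B4.symm B2 B3
    refine ⟨w1, w2, fun h => by norm_num at h, fun hL => ?_, by simp⟩
    obtain ⟨t1, t2, t3⟩ := w4 hL
    rw [hv]; simp [K, Kp, gi, hL, t1, t2, t3]
  · have r1 : (f k).1 = x + 1 := by omega
    have r2 : (f k).2 = y := by omega
    have s1 : (f (k+1+1)).1 = x := by omega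
    have s2 : (f (k+1+1)).2 = y + 1 := by omega
    rw [r1, r2, s1, s2] at A1 A2 A3 A4
    have B1 : ¬ (Encl m f (x, y - 1) ↔ Encl m f (x, y)) := fun h => (A1.mp h) (by omega)
    have B2 : (Encl m f (x - 1, y - 1) ↔ Encl m f (x - 1, y)) := A2.mpr (by omega)
    have B3 : ¬ (Encl m f (x - 1, y) ↔ Encl m f (x, y)) := fun h => (A3.mp h) (by omega)
    have B4 : (Encl m f (x - 1, y - 1) ↔ Encl m f (x, y - 1)) := A4.mpr (by omega)
    clear A1 A2 A3 A4
    have c1 : lc (f k) (f (k+1)) = (x, y - 1) := Prod.ext (by simp only [lc, rc, al, ar]; omega) (by simp only [lc, rc, al, ar]; omega)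
    have c2 : rc (f k) (f (k+1)) = (x, y) := Prod.ext (by simp only [lc, rc, al, ar]; omega) (by simp only [lc, rc, al, ar]; omega)
    have c3 : al (f k) (f (k+1)) = (x - 1, y - 1) := Prod.ext (by simp only [lc, rc, al, ar]; omega) (by simp only [lc, rc, al, ar]; omega)
    have c4 : ar (f k) (f (k+1)) = (x - 1, y) := Prod.ext (by simp only [lc, rc, al, ar]; omega) (by simp only [lc, rc, al, ar]; omega)
    have c5 : lc (f (k+1)) (f (k+1+1)) = (x - 1, y) := Prod.ext (by simp only [lc, rc, al, ar]; omega) (by simp only [lc, rc, al, ar]; omega)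
    have c6 : rc (f (k+1)) (f (k+1+1)) = (x, y) := Prod.ext (by simp only [lc, rc, al, ar]; omega) (by simp only [lc, rc, al, ar]; omega)
    have ct : cr (f k) (f (k+1)) (f (k+1+1)) = -1 := by
      simp only [cr, r1, r2, s1, s2, ← hx, ← hy]; ring
    rw [c1, c2, c3, c4, c5, c6, ct]
    obtain ⟨w1, w2, w3, w4⟩ := tR (Encl m f (x, y - 1)) (Encl m f (x - 1, y - 1)) (Encl m f (x - 1, y)) (Encl m f (x, y)) B4.symm B2 B3
    refine ⟨w1, w2, fun _ => w3, fun hL => ?_, by simp⟩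
    obtain ⟨t1, t2, t3⟩ := w4 hL
    rw [hv]; simp [K, Kp, gi, hL, t1, t2, t3]
  · have r1 : (f k).1 = x + 1 := by omega
    have r2 : (f k).2 = y := by omega
    have s1 : (f (k+1+1)).1 = x := by omega
    have s2 : (f (k+1+1)).2 = y - 1 := by omega
    rw [r1, r2, s1, s2] at A1 A2 A3 A4
    have B1 : ¬ (Encl m f (x, y - 1) ↔ Encl m f (x, y)) := fun h => (A1.mp h) (by omega)
    have B2 : (Encl m f (x - 1, y - 1) ↔ Encl m f (x - 1, y)) := A2.mpr (by omega)
    have B3 : (Encl m f (x - 1, y) ↔ Encl m f (x, y)) := A3.mpr (by omega)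
    have B4 : ¬ (Encl m f (x - 1, y - 1) ↔ Encl m f (x, y - 1)) := fun h => (A4.mp h) (by omega)
    clear A1 A2 A3 A4
    have c1 : lc (f k) (f (k+1)) = (x, y - 1) := Prod.ext (by simp only [lc, rc, al, ar]; omega) (by simp only [lc, rc, al, ar]; omega)
    have c2 : rc (f k) (f (k+1)) = (x, y) := Prod.ext (by simp only [lc, rc, al, ar]; omega) (by simp only [lc, rc, al, ar]; omega)
    have c3 : al (f k) (f (k+1)) = (x - 1, y - 1) := Prod.ext (by simp only [lc, rc, al, ar]; omega) (by simp only [lc, rc, al, ar]; omega)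
    have c4 : ar (f k) (f (k+1)) = (x - 1, y) := Prod.ext (by simp only [lc, rc, al, ar]; omega) (by simp only [lc, rc, al, ar]; omega)
    have c5 : lc (f (k+1)) (f (k+1+1)) = (x, y - 1) := Prod.ext (by simp only [lc, rc, al, ar]; omega) (by simp only [lc, rc, al, ar]; omega)
    have c6 : rc (f (k+1)) (f (k+1+1)) = (x - 1, y - 1) := Prod.ext (by simp only [lc, rc, al, ar]; omega) (by simp only [lc, rc, al, ar]; omega)
    have ct : cr (f k) (f (k+1)) (f (k+1+1)) = 1 := by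
      simp only [cr, r1, r2, s1, s2, ← hx, ← hy]; ring
    rw [c1, c2, c3, c4, c5, c6, ct]
    obtain ⟨w2, w4⟩ := tL (Encl m f (x, y - 1)) (Encl m f (x - 1, y - 1)) (Encl m f (x - 1, y)) (Encl m f (x, y)) (fun h => B4 h.symm) B2 B3
    refine ⟨Iff.rfl, w2, fun h => by norm_num at h, fun hL => ?_, by simp⟩
    obtain ⟨t1, t2, t3⟩ := w4 hL
    rw [hv]; simp [K, Kp, gi, hL, t1, t2, t3]
  · have r1 : (f k).1 = x := by omega
    have r2 : (f k).2 = y - 1 := by omega
    have s1 : (f (k+1+1)).1 = x + 1 := by omega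
    have s2 : (f (k+1+1)).2 = y := by omega
    rw [r1, r2, s1, s2] at A1 A2 A3 A4
    have B1 : ¬ (Encl m f (x, y - 1) ↔ Encl m f (x, y)) := fun h => (A1.mp h) (by omega)
    have B2 : (Encl m f (x - 1, y - 1) ↔ Encl m f (x - 1, y)) := A2.mpr (by omega)
    have B3 : (Encl m f (x - 1, y) ↔ Encl m f (x, y)) := A3.mpr (by omega)
    have B4 : ¬ (Encl m f (x - 1, y - 1) ↔ Encl m f (x, y - 1)) := fun h => (A4.mp h) (by omega)
    clear A1 A2 A3 A4
    have c1 : lc (f k) (f (k+1)) = (x - 1, y - 1) := Prod.ext (by simp only [lc, rc, al, ar]; omega) (by simp only [lc, rc, al, ar]; omega)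
    have c2 : rc (f k) (f (k+1)) = (x, y - 1) := Prod.ext (by simp only [lc, rc, al, ar]; omega) (by simp only [lc, rc, al, ar]; omega)
    have c3 : al (f k) (f (k+1)) = (x - 1, y) := Prod.ext (by simp only [lc, rc, al, ar]; omega) (by simp only [lc, rc, al, ar]; omega)
    have c4 : ar (f k) (f (k+1)) = (x, y) := Prod.ext (by simp only [lc, rc, al, ar]; omega) (by simp only [lc, rc, al, ar]; omega)
    have c5 : lc (f (k+1)) (f (k+1+1)) = (x, y) := Prod.ext (by simp only [lc, rc, al, ar]; omega) (by simp only [lc, rc, al, ar]; omega)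
    have c6 : rc (f (k+1)) (f (k+1+1)) = (x, y - 1) := Prod.ext (by simp only [lc, rc, al, ar]; omega) (by simp only [lc, rc, al, ar]; omega)
    have ct : cr (f k) (f (k+1)) (f (k+1+1)) = -1 := by
      simp only [cr, r1, r2, s1, s2, ← hx, ← hy]; ring
    rw [c1, c2, c3, c4, c5, c6, ct]
    obtain ⟨w1, w2, w3, w4⟩ := tR (Encl m f (x - 1, y - 1)) (Encl m f (x - 1, y)) (Encl m f (x, y)) (Encl m f (x, y - 1)) B2 B3 (fun h => B1 h.symm)
    refine ⟨w1, w2, fun _ => w3, fun hL => ?_, by simp⟩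
    obtain ⟨t1, t2, t3⟩ := w4 hL
    rw [hv]; simp [K, Kp, gi, hL, t1, t2, t3]
  · have r1 : (f k).1 = x := by omega
    have r2 : (f k).2 = y - 1 := by omega
    have s1 : (f (k+1+1)).1 = x - 1 := by omega
    have s2 : (f (k+1+1)).2 = y := by omega
    rw [r1, r2, s1, s2] at A1 A2 A3 A4
    have B1 : (Encl m f (x, y - 1) ↔ Encl m f (x, y)) := A1.mpr (by omega)
    have B2 : ¬ (Encl m f (x - 1, y - 1) ↔ Encl m f (x - 1, y)) := fun h => (A2.mp h) (by omega)
    have B3 : (Encl m f (x - 1, y) ↔ Encl m f (x, y)) := A3.mpr (by omega)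
    have B4 : ¬ (Encl m f (x - 1, y - 1) ↔ Encl m f (x, y - 1)) := fun h => (A4.mp h) (by omega)
    clear A1 A2 A3 A4
    have c1 : lc (f k) (f (k+1)) = (x - 1, y - 1) := Prod.ext (by simp only [lc, rc, al, ar]; omega) (by simp only [lc, rc, al, ar]; omega)
    have c2 : rc (f k) (f (k+1)) = (x, y - 1) := Prod.ext (by simp only [lc, rc, al, ar]; omega) (by simp only [lc, rc, al, ar]; omega)
    have c3 : al (f k) (f (k+1)) = (x - 1, y) := Prod.ext (by simp only [lc, rc, al, ar]; omega) (by simp only [lc, rc, al, ar]; omega)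
    have c4 : ar (f k) (f (k+1)) = (x, y) := Prod.ext (by simp only [lc, rc, al, ar]; omega) (by simp only [lc, rc, al, ar]; omega)
    have c5 : lc (f (k+1)) (f (k+1+1)) = (x - 1, y - 1) := Prod.ext (by simp only [lc, rc, al, ar]; omega) (by simp only [lc, rc, al, ar]; omega)
    have c6 : rc (f (k+1)) (f (k+1+1)) = (x - 1, y) := Prod.ext (by simp only [lc, rc, al, ar]; omega) (by simp only [lc, rc, al, ar]; omega)
    have ct : cr (f k) (f (k+1)) (f (k+1+1)) = 1 := by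
      simp only [cr, r1, r2, s1, s2, ← hx, ← hy]; ring
    rw [c1, c2, c3, c4, c5, c6, ct]
    obtain ⟨w2, w4⟩ := tL (Encl m f (x - 1, y - 1)) (Encl m f (x - 1, y)) (Encl m f (x, y)) (Encl m f (x, y - 1)) B2 B3 B1.symm
    refine ⟨Iff.rfl, w2, fun h => by norm_num at h, fun hL => ?_, by simp⟩
    obtain ⟨t1, t2, t3⟩ := w4 hL
    rw [hv]; simp [K, Kp, gi, hL, t1, t2, t3]
  · have r1 : (f k).1 = x := by omega
    have r2 : (f k).2 = y - 1 := by omega
    have s1 : (f (k+1+1)).1 = x := by omega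
    have s2 : (f (k+1+1)).2 = y + 1 := by omega
    rw [r1, r2, s1, s2] at A1 A2 A3 A4
    have B1 : (Encl m f (x, y - 1) ↔ Encl m f (x, y)) := A1.mpr (by omega)
    have B2 : (Encl m f (x - 1, y - 1) ↔ Encl m f (x - 1, y)) := A2.mpr (by omega)
    have B3 : ¬ (Encl m f (x - 1, y) ↔ Encl m f (x, y)) := fun h => (A3.mp h) (by omega)
    have B4 : ¬ (Encl m f (x - 1, y - 1) ↔ Encl m f (x, y - 1)) := fun h => (A4.mp h) (by omega)
    clear A1 A2 A3 A4
    have c1 : lc (f k) (f (k+1)) = (x - 1, y - 1) := Prod.ext (by simp only [lc, rc, al, ar]; omega) (by simp only [lc, rc, al, ar]; omega)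
    have c2 : rc (f k) (f (k+1)) = (x, y - 1) := Prod.ext (by simp only [lc, rc, al, ar]; omega) (by simp only [lc, rc, al, ar]; omega)
    have c3 : al (f k) (f (k+1)) = (x - 1, y) := Prod.ext (by simp only [lc, rc, al, ar]; omega) (by simp only [lc, rc, al, ar]; omega)
    have c4 : ar (f k) (f (k+1)) = (x, y) := Prod.ext (by simp only [lc, rc, al, ar]; omega) (by simp only [lc, rc, al, ar]; omega)
    have c5 : lc (f (k+1)) (f (k+1+1)) = (x - 1, y) := Prod.ext (by simp only [lc, rc, al, ar]; omega) (by simp only [lc, rc, al, ar]; omega)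
    have c6 : rc (f (k+1)) (f (k+1+1)) = (x, y) := Prod.ext (by simp only [lc, rc, al, ar]; omega) (by simp only [lc, rc, al, ar]; omega)
    have ct : cr (f k) (f (k+1)) (f (k+1+1)) = 0 := by
      simp only [cr, r1, r2, s1, s2, ← hx, ← hy]; ring
    rw [c1, c2, c3, c4, c5, c6, ct]
    obtain ⟨w1, w2, w4⟩ := tS (Encl m f (x - 1, y - 1)) (Encl m f (x - 1, y)) (Encl m f (x, y)) (Encl m f (x, y - 1)) B2 B3 B1.symm
    refine ⟨w1, w2, fun h => by norm_num at h, fun hL => ?_, by simp⟩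
    obtain ⟨t1, t2, t3⟩ := w4 hL
    rw [hv]; simp [K, Kp, gi, hL, t1, t2, t3]
  · exact absurd (hinj (Prod.ext (by omega) (by omega) : f (k + 1 + 1) = f k)) hk2
  · have r1 : (f k).1 = x := by omega
    have r2 : (f k).2 = y + 1 := by omega
    have s1 : (f (k+1+1)).1 = x + 1 := by omega
    have s2 : (f (k+1+1)).2 = y := by omega
    rw [r1, r2, s1, s2] at A1 A2 A3 A4
    have B1 : ¬ (Encl m f (x, y - 1) ↔ Encl m f (x, y)) := fun h => (A1.mp h) (by omega)
    have B2 : (Encl m f (x - 1, y - 1) ↔ Encl m f (x - 1, y)) := A2.mpr (by omega)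
    have B3 : ¬ (Encl m f (x - 1, y) ↔ Encl m f (x, y)) := fun h => (A3.mp h) (by omega)
    have B4 : (Encl m f (x - 1, y - 1) ↔ Encl m f (x, y - 1)) := A4.mpr (by omega)
    clear A1 A2 A3 A4
    have c1 : lc (f k) (f (k+1)) = (x, y) := Prod.ext (by simp only [lc, rc, al, ar]; omega) (by simp only [lc, rc, al, ar]; omega)
    have c2 : rc (f k) (f (k+1)) = (x - 1, y) := Prod.ext (by simp only [lc, rc, al, ar]; omega) (by simp only [lc, rc, al, ar]; omega)
    have c3 : al (f k) (f (k+1)) = (x, y - 1) := Prod.ext (by simp only [lc, rc, al, ar]; omega) (by simp only [lc, rc, al, ar]; omega)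
    have c4 : ar (f k) (f (k+1)) = (x - 1, y - 1) := Prod.ext (by simp only [lc, rc, al, ar]; omega) (by simp only [lc, rc, al, ar]; omega)
    have c5 : lc (f (k+1)) (f (k+1+1)) = (x, y) := Prod.ext (by simp only [lc, rc, al, ar]; omega) (by simp only [lc, rc, al, ar]; omega)
    have c6 : rc (f (k+1)) (f (k+1+1)) = (x, y - 1) := Prod.ext (by simp only [lc, rc, al, ar]; omega) (by simp only [lc, rc, al, ar]; omega)
    have ct : cr (f k) (f (k+1)) (f (k+1+1)) = 1 := by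
      simp only [cr, r1, r2, s1, s2, ← hx, ← hy]; ring
    rw [c1, c2, c3, c4, c5, c6, ct]
    obtain ⟨w2, w4⟩ := tL (Encl m f (x, y)) (Encl m f (x, y - 1)) (Encl m f (x - 1, y - 1)) (Encl m f (x - 1, y)) (fun h => B1 h.symm) B4.symm B2
    refine ⟨Iff.rfl, w2, fun h => by norm_num at h, fun hL => ?_, by simp⟩
    obtain ⟨t1, t2, t3⟩ := w4 hL
    rw [hv]; simp [K, Kp, gi, hL, t1, t2, t3]
  · have r1 : (f k).1 = x := by omega
    have r2 : (f k).2 = y + 1 := by omega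
    have s1 : (f (k+1+1)).1 = x - 1 := by omega
    have s2 : (f (k+1+1)).2 = y := by omega
    rw [r1, r2, s1, s2] at A1 A2 A3 A4
    have B1 : (Encl m f (x, y - 1) ↔ Encl m f (x, y)) := A1.mpr (by omega)
    have B2 : ¬ (Encl m f (x - 1, y - 1) ↔ Encl m f (x - 1, y)) := fun h => (A2.mp h) (by omega)
    have B3 : ¬ (Encl m f (x - 1, y) ↔ Encl m f (x, y)) := fun h => (A3.mp h) (by omega)
    have B4 : (Encl m f (x - 1, y - 1) ↔ Encl m f (x, y - 1)) := A4.mpr (by omega)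
    clear A1 A2 A3 A4
    have c1 : lc (f k) (f (k+1)) = (x, y) := Prod.ext (by simp only [lc, rc, al, ar]; omega) (by simp only [lc, rc, al, ar]; omega)
    have c2 : rc (f k) (f (k+1)) = (x - 1, y) := Prod.ext (by simp only [lc, rc, al, ar]; omega) (by simp only [lc, rc, al, ar]; omega)
    have c3 : al (f k) (f (k+1)) = (x, y - 1) := Prod.ext (by simp only [lc, rc, al, ar]; omega) (by simp only [lc, rc, al, ar]; omega)
    have c4 : ar (f k) (f (k+1)) = (x - 1, y - 1) := Prod.ext (by simp only [lc, rc, al, ar]; omega) (by simp only [lc, rc, al, ar]; omega)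
    have c5 : lc (f (k+1)) (f (k+1+1)) = (x - 1, y - 1) := Prod.ext (by simp only [lc, rc, al, ar]; omega) (by simp only [lc, rc, al, ar]; omega)
    have c6 : rc (f (k+1)) (f (k+1+1)) = (x - 1, y) := Prod.ext (by simp only [lc, rc, al, ar]; omega) (by simp only [lc, rc, al, ar]; omega)
    have ct : cr (f k) (f (k+1)) (f (k+1+1)) = -1 := by
      simp only [cr, r1, r2, s1, s2, ← hx, ← hy]; ring
    rw [c1, c2, c3, c4, c5, c6, ct]
    obtain ⟨w1, w2, w3, w4⟩ := tR (Encl m f (x, y)) (Encl m f (x, y - 1)) (Encl m f (x - 1, y - 1)) (Encl m f (x - 1, y)) B1.symm B4.symm B2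
    refine ⟨w1, w2, fun _ => w3, fun hL => ?_, by simp⟩
    obtain ⟨t1, t2, t3⟩ := w4 hL
    rw [hv]; simp [K, Kp, gi, hL, t1, t2, t3]
  · exact absurd (hinj (Prod.ext (by omega) (by omega) : f (k + 1 + 1) = f k)) hk2
  · have r1 : (f k).1 = x := by omega
    have r2 : (f k).2 = y + 1 := by omega
    have s1 : (f (k+1+1)).1 = x := by omega
    have s2 : (f (k+1+1)).2 = y - 1 := by omega
    rw [r1, r2, s1, s2] at A1 A2 A3 A4
    have B1 : (Encl m f (x, y - 1) ↔ Encl m f (x, y)) := A1.mpr (by omega)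
    have B2 : (Encl m f (x - 1, y - 1) ↔ Encl m f (x - 1, y)) := A2.mpr (by omega)
    have B3 : ¬ (Encl m f (x - 1, y) ↔ Encl m f (x, y)) := fun h => (A3.mp h) (by omega)
    have B4 : ¬ (Encl m f (x - 1, y - 1) ↔ Encl m f (x, y - 1)) := fun h => (A4.mp h) (by omega)
    clear A1 A2 A3 A4
    have c1 : lc (f k) (f (k+1)) = (x, y) := Prod.ext (by simp only [lc, rc, al, ar]; omega) (by simp only [lc, rc, al, ar]; omega)
    have c2 : rc (f k) (f (k+1)) = (x - 1, y) := Prod.ext (by simp only [lc, rc, al, ar]; omega) (by simp only [lc, rc, al, ar]; omega)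
    have c3 : al (f k) (f (k+1)) = (x, y - 1) := Prod.ext (by simp only [lc, rc, al, ar]; omega) (by simp only [lc, rc, al, ar]; omega)
    have c4 : ar (f k) (f (k+1)) = (x - 1, y - 1) := Prod.ext (by simp only [lc, rc, al, ar]; omega) (by simp only [lc, rc, al, ar]; omega)
    have c5 : lc (f (k+1)) (f (k+1+1)) = (x, y - 1) := Prod.ext (by simp only [lc, rc, al, ar]; omega) (by simp only [lc, rc, al, ar]; omega)
    have c6 : rc (f (k+1)) (f (k+1+1)) = (x - 1, y - 1) := Prod.ext (by simp only [lc, rc, al, ar]; omega) (by simp only [lc, rc, al, ar]; omega)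
    have ct : cr (f k) (f (k+1)) (f (k+1+1)) = 0 := by
      simp only [cr, r1, r2, s1, s2, ← hx, ← hy]; ring
    rw [c1, c2, c3, c4, c5, c6, ct]
    obtain ⟨w1, w2, w4⟩ := tS (Encl m f (x, y)) (Encl m f (x, y - 1)) (Encl m f (x - 1, y - 1)) (Encl m f (x - 1, y)) B1.symm (fun h => B4 h.symm) B2
    refine ⟨w1, w2, fun h => by norm_num at h, fun hL => ?_, by simp⟩
    obtain ⟨t1, t2, t3⟩ := w4 hL
    rw [hv]; simp [K, Kp, gi, hL, t1, t2, t3]

end Pool.Agent.H111S
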