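import Pool.Agent.H111S.Side
import Pool.Agent.H924P.Mean

set_option autoImplicit false
set_option linter.unusedVariables false
set_option linter.unusedSectionVars false
set_option linter.unusedSimpArgs false
set_option maxHeartbeats 4000000

/-!
# Closed loops on the square lattice: the total turning is at most one full turn
-/

namespace Pool.Agent.H111S

open Finset Pool.Agent.H924P

variable {m : ℕ} [NeZero m] {f : ZMod m → ℤ × ℤ}

/-- counterclockwise loops -/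
def CCW (f : ZMod m → ℤ × ℤ) : Prop := ∀ k, Encl m f (lc (f k) (f (k + 1)))

lemma ccw_of (hm : 4 ≤ m) (hinj : Function.Injective f)
    (hs : ∀ i : ZMod m, |(f (i+1)).1 - (f i).1| + |(f (i+1)).2 - (f i).2| = 1)
    (h0 : Encl m f (lc (f 0) (f (0 + 1)))) : CCW f := by
  have h : ∀ j : ℕ, Encl m f (lc (f (j : ZMod m)) (f ((j : ZMod m) + 1))) := by
    intro j
    induction j with
    | zero => simpa using h0
    | succ j ih =>
      push_cast
      exact (turn_facts hm hinj hs (j : ZMod m)).1.mpr ih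
  intro k
  have := h k.val
  rwa [ZMod.natCast_zmod_val] at this

/-- the indicator of the enclosed cells -/
noncomputable def g (f : ZMod m → ℤ × ℤ) (c : ℤ × ℤ) : ℤ := gi (Encl m f c)

/-- a big box -/
noncomputable def Bx (m : ℕ) : Finset (ℤ × ℤ) := Finset.Icc (-(m : ℤ) - 2) (m + 2) ×ˢ Finset.Icc (-(m : ℤ) - 2) (m + 2)

lemma gi_true {P : Prop} (h : P) : gi P = 1 := by unfold gi; rw [if_pos h]
lemma gi_false {P : Prop} (h : ¬ P) : gi P = 0 := by unfold gi; rw [if_neg h]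

lemma g_box (hf : IsLoop m f) {c : ℤ × ℤ} (hc : Encl m f c) :
    -(m : ℤ) ≤ c.1 ∧ c.1 < m ∧ -(m : ℤ) ≤ c.2 ∧ c.2 < m := by
  have h := encl_box hf.2.2 (L := (m : ℤ)) (fun i => (loop_bound hf i).1)
    (fun i => (loop_bound hf i).2) hc
  exact ⟨h.1.1, h.1.2, h.2.1, h.2.2⟩

lemma mem_Bx {c : ℤ × ℤ} : c ∈ Bx m ↔ (-(m : ℤ) - 2 ≤ c.1 ∧ c.1 ≤ m + 2) ∧
    (-(m : ℤ) - 2 ≤ c.2 ∧ c.2 ≤ m + 2) := by
  simp [Bx, Finset.mem_product]

lemma shift_sum (F : ℤ × ℤ → ℤ) (hF : ∀ c, F c ≠ 0 → (-(m : ℤ) - 1 ≤ c.1 ∧ c.1 ≤ m + 1) ∧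
    (-(m : ℤ) - 1 ≤ c.2 ∧ c.2 ≤ m + 1)) (s : ℤ × ℤ) (h1 : 0 ≤ s.1) (h2 : s.1 ≤ 1) (h3 : 0 ≤ s.2)
    (h4 : s.2 ≤ 1) : ∑ v ∈ Bx m, F (v.1 - s.1, v.2 - s.2) = ∑ v ∈ Bx m, F v := by
  refine Finset.sum_bij_ne_zero (fun v _ _ => (v.1 - s.1, v.2 - s.2)) ?_ ?_ ?_ ?_
  · intro v hv hne
    have := hF _ hne
    simp only at this
    rw [mem_Bx]
    simp only
    omega
  · intro v _ _ w _ _ h
    simp only [Prod.mk.injEq] at h
    exact Prod.ext (by omega) (by omega)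
  · intro b hb hne
    have := hF _ hne
    refine ⟨(b.1 + s.1, b.2 + s.2), ?_, ?_, ?_⟩
    · rw [mem_Bx]; simp only; omega
    · simpa using hne
    · simp
  · intro v _ _
    rfl

lemma g_ne {c : ℤ × ℤ} (h : g f c ≠ 0) : Encl m f c := by
  by_contra hc
  exact h (gi_false hc)

/-- cells with an enclosed cell below -/
noncomputable def tV (f : ZMod m → ℤ × ℤ) : Finset (ℤ × ℤ) := by
  classical
  exact (Bx m).filter (fun c => Encl m f c ∧ Encl m f (c.1, c.2 - 1))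

/-- cells with an enclosed cell on the left, and no enclosed `2 × 2` block -/
noncomputable def tH (f : ZMod m → ℤ × ℤ) : Finset (ℤ × ℤ) := by
  classical
  exact (Bx m).filter (fun c => Encl m f c ∧ Encl m f (c.1 - 1, c.2) ∧
    ¬ (Encl m f (c.1, c.2 - 1) ∧ Encl m f (c.1 - 1, c.2 - 1)))

/-- enclosed cells -/
noncomputable def CC (f : ZMod m → ℤ × ℤ) : Finset (ℤ × ℤ) := by
  classical
  exact (Bx m).filter (fun c => Encl m f c)

lemma mem_CC (hf : IsLoop m f) {c : ℤ × ℤ} : c ∈ CC f ↔ Encl m f c := by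
  classical
  unfold CC
  rw [Finset.mem_filter, mem_Bx]
  constructor
  · exact fun h => h.2
  · intro h
    have := g_box hf h
    exact ⟨by omega, h⟩

lemma area_eq (hf : IsLoop m f) : area m f = (CC f).card := by
  unfold area
  rw [← Nat.card_eq_finsetCard]
  exact Nat.card_congr (Equiv.subtypeEquivRight fun c => (mem_CC hf).symm)

lemma sum_K (hf : IsLoop m f) :
    ∑ v ∈ Bx m, K f v = 4 * ((CC f).card : ℤ) - 4 * ((tV f).card : ℤ) - 4 * ((tH f).card : ℤ) := by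
  classical
  have hg : ∀ c, g f c ≠ 0 → (-(m : ℤ) - 1 ≤ c.1 ∧ c.1 ≤ m + 1) ∧
      (-(m : ℤ) - 1 ≤ c.2 ∧ c.2 ≤ m + 1) := by
    intro c hc
    have := g_box hf (g_ne hc)
    omega
  have s0 : ∑ v ∈ Bx m, g f v = (CC f).card := by
    unfold g gi CC
    rw [Finset.sum_boole]
  have s1 := shift_sum (m := m) (g f) hg (1, 0) (by simp) (by simp) (by simp) (by simp)
  have s2 := shift_sum (m := m) (g f) hg (0, 1) (by simp) (by simp) (by simp) (by simp)
  have s3 := shift_sum (m := m) (g f) hg (1, 1) (by simp) (by simp) (by simp) (by simp)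
  have hV : ∀ c, (g f c * g f (c.1, c.2 - 1)) ≠ 0 → (-(m : ℤ) - 1 ≤ c.1 ∧ c.1 ≤ m + 1) ∧
      (-(m : ℤ) - 1 ≤ c.2 ∧ c.2 ≤ m + 1) := fun c hc => hg c (left_ne_zero_of_mul hc)
  have hH : ∀ c, (g f c * g f (c.1 - 1, c.2)) ≠ 0 → (-(m : ℤ) - 1 ≤ c.1 ∧ c.1 ≤ m + 1) ∧
      (-(m : ℤ) - 1 ≤ c.2 ∧ c.2 ≤ m + 1) := fun c hc => hg c (left_ne_zero_of_mul hc)
  have v1 := shift_sum (m := m) (fun c => g f c * g f (c.1, c.2 - 1)) hV (1, 0) (by simp) (by simp)
    (by simp) (by simp)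
  have w1 := shift_sum (m := m) (fun c => g f c * g f (c.1 - 1, c.2)) hH (0, 1) (by simp) (by simp)
    (by simp) (by simp)
  simp only [sub_zero] at s1 s2 s3 v1 w1
  have eV : ∑ v ∈ Bx m, g f v * g f (v.1, v.2 - 1) = (tV f).card := by
    unfold tV
    rw [← Finset.sum_boole]
    refine Finset.sum_congr rfl fun v _ => ?_
    by_cases a : Encl m f v <;> by_cases b : Encl m f (v.1, v.2 - 1) <;> simp [g, gi, a, b]
  have eH : ∑ v ∈ Bx m, (g f v * g f (v.1 - 1, v.2) -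
      g f v * g f (v.1 - 1, v.2) * g f (v.1, v.2 - 1) * g f (v.1 - 1, v.2 - 1)) = (tH f).card := by
    unfold tH
    rw [← Finset.sum_boole]
    refine Finset.sum_congr rfl fun v _ => ?_
    by_cases a : Encl m f v <;> by_cases b : Encl m f (v.1 - 1, v.2) <;>
      by_cases c : Encl m f (v.1, v.2 - 1) <;> by_cases d : Encl m f (v.1 - 1, v.2 - 1) <;>
      simp [g, gi, a, b, c, d]
  have e : ∀ v : ℤ × ℤ, K f v = g f v + g f (v.1 - 1, v.2) + g f (v.1, v.2 - 1) +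
      g f (v.1 - 1, v.2 - 1) + 2 * (g f v * g f (v.1 - 1, v.2))
      - 2 * (g f (v.1, v.2 - 1) * g f (v.1 - 1, v.2 - 1)) -
      2 * (g f v * g f (v.1, v.2 - 1)) - 2 * (g f (v.1 - 1, v.2) * g f (v.1 - 1, v.2 - 1)) -
      4 * (g f v * g f (v.1 - 1, v.2) -
      g f v * g f (v.1 - 1, v.2) * g f (v.1, v.2 - 1) * g f (v.1 - 1, v.2 - 1)) := by
    intro v
    unfold K Kp g
    ring
  rw [Finset.sum_congr rfl fun v _ => e v]
  simp only [Finset.sum_sub_distrib, Finset.sum_add_distrib, ← Finset.mul_sum]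
  rw [Finset.sum_sub_distrib] at eH
  linarith [s0, s1, s2, s3, v1, w1, eV, eH]

lemma K_off (hm : 4 ≤ m) (hf : IsLoop m f) {v : ℤ × ℤ} (hv : ∀ k, f k ≠ v) : K f v = 0 := by
  have hE : ∀ q, ¬ Ed f v q := by
    rintro q ⟨k, ⟨h, _⟩ | ⟨_, h⟩⟩
    · exact hv _ h
    · exact hv _ h
  have h1 := (encl_v hm hf.2.1 hf.2.2 v.1 v.2).mpr (hE _)
  have h2 := (encl_v hm hf.2.1 hf.2.2 (v.1 - 1) v.2).mpr (by
    rw [sub_add_cancel, ed_symm]; exact hE _)
  have h3 := (encl_h hm hf.2.1 hf.2.2 v.1 v.2).mpr (hE _)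
  unfold K Kp
  have e1 : Encl m f (v.1, v.2) = Encl m f v := rfl
  rw [e1] at h1 h3
  by_cases a : Encl m f v
  · rw [gi_true a, gi_true (h3.mpr a), gi_true (h1.mpr a), gi_true (h2.mpr (h3.mpr a))]; norm_num
  · rw [gi_false a, gi_false (fun h => a (h3.mp h)), gi_false (fun h => a (h1.mp h)),
      gi_false (fun h => a (h3.mp (h2.mp h)))]; norm_num

lemma sum_cr (hm : 4 ≤ m) (hf : IsLoop m f) (hc : CCW f) :
    ∑ k : ZMod m, cr (f k) (f (k+1)) (f (k+1+1)) = ∑ v ∈ Bx m, K f v := by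
  classical
  have h1 : ∑ k : ZMod m, cr (f k) (f (k+1)) (f (k+1+1)) = ∑ k : ZMod m, K f (f (k + 1)) :=
    Finset.sum_congr rfl fun k _ => ((turn_facts hm hf.2.1 hf.2.2 k).2.2.2.1 (hc k)).symm
  have h2 : ∑ k : ZMod m, K f (f (k + 1)) = ∑ k : ZMod m, K f (f k) :=
    Equiv.sum_comp (Equiv.addRight (1 : ZMod m)) (fun k => K f (f k))
  rw [h1, h2, ← Finset.sum_image (g := f) (f := fun v => K f v) (s := univ)
    (fun a _ b _ h => hf.2.1 h)]
  apply Finset.sum_subset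
  · intro v hv
    obtain ⟨k, -, rfl⟩ := Finset.mem_image.mp hv
    have := loop_bound hf k
    rw [abs_le, abs_le] at this
    rw [mem_Bx]
    omega
  · intro v _ hv
    apply K_off hm hf
    intro k hk
    exact hv (Finset.mem_image.mpr ⟨k, Finset.mem_univ _, hk⟩)

end Pool.Agent.H111S
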